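import Pool.Agent.Work.MP_11690a_gt.Mfd

/-!
The blow-up is a closed manifold.
-/

namespace Pool.Agent.Work.MP_11690a_gt

open scoped Manifold ContDiff Topology LinearAlgebra.Projectivization
open Set Filter

/-- blow-down -/
noncomputable def pi0 : PM.Sp → T6 := fun x => Sum.elim (fun x => x.1) (fun _ => 0) (show XX from x)

theorem pi0_tM {u : C3} (hu : tor u ≠ 0) : pi0 (tM u) = tor u := by
  rw [tM_of hu]
  rfl

theorem pi0_cB {i : Fin 3} {u : C3} (hu : u ∈ DB i) : pi0 (cB i u) = tor (bl i u) := by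
  by_cases hi : u i = 0
  · rw [cB_zero hi, bl, hi, zero_smul, tor_zero]
    rfl
  · rw [cB_ne hi, pi0_tM (tor_bl_ne hu hi)]

theorem continuous_pi0 : Continuous pi0 := by
  rw [continuous_def]
  intro s hs
  rintro (p | i)
  · have : PM.D (Sum.inl p) ∩ PM.par (Sum.inl p) ⁻¹' (pi0 ⁻¹' s) = DT p ∩ tor ⁻¹' s := by
      ext u
      refine and_congr_right fun hu => ?_
      change pi0 (tM u) ∈ s ↔ tor u ∈ s
      rw [pi0_tM (tor_DT_ne hu)]
    rw [this]
    exact (isOpen_DT p).inter (hs.preimage continuous_tor)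
  · have : PM.D (Sum.inr i) ∩ PM.par (Sum.inr i) ⁻¹' (pi0 ⁻¹' s) =
        DB i ∩ (fun u => tor (bl i u)) ⁻¹' s := by
      ext u
      refine and_congr_right fun hu => ?_
      change pi0 (cB i u) ∈ s ↔ tor (bl i u) ∈ s
      rw [pi0_cB hu]
    rw [this]
    exact (isOpen_DB i).inter (hs.preimage (continuous_tor.comp (continuous_bl i)))

/-- the orthogonal projection on a line as a matrix -/
noncomputable def pm (V : C3) : Fin 3 → Fin 3 → ℂ := fun a b =>
  V a * (starRingEnd ℂ) (V b) / (nsq V : ℂ)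

theorem pm_smul {c : ℂ} (hc : c ≠ 0) (V : C3) : pm (c • V) = pm V := by
  funext a b
  unfold pm
  rw [nsq_smul, Complex.ofReal_mul, Complex.normSq_eq_conj_mul_self]
  have h3 : (starRingEnd ℂ) c ≠ 0 := (map_ne_zero _).2 hc
  simp only [Pi.smul_apply, smul_eq_mul, map_mul]
  by_cases h : (nsq V : ℂ) = 0
  · simp [h]
  · field_simp

theorem of_pm {V W : C3} (hV : V ≠ 0) (hW : W ≠ 0) (h : pm V = pm W) : ∃ a : ℂ, a • V = W := by
  have h1 : (nsq V : ℂ) ≠ 0 := by exact_mod_cast (nsq_pos hV).ne'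
  have h2 : (nsq W : ℂ) ≠ 0 := by exact_mod_cast (nsq_pos hW).ne'
  refine ⟨hh V W / nsq V, ?_⟩
  funext a
  have h3 : ∀ b, V a * (starRingEnd ℂ) (V b) / (nsq V : ℂ) * W b =
      W a * (starRingEnd ℂ) (W b) / (nsq W : ℂ) * W b := fun b => by
    have := congrFun (congrFun h a) b
    unfold pm at this
    rw [this]
  have h4 := Finset.sum_congr rfl fun b (_ : b ∈ Finset.univ) => h3 b
  have h5 : ∑ b, V a * (starRingEnd ℂ) (V b) / (nsq V : ℂ) * W b = hh V W / nsq V * V a := by
    unfold hh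
    rw [Finset.sum_div, Finset.sum_mul]
    exact Finset.sum_congr rfl fun b _ => by ring
  have h6 : ∑ b, W a * (starRingEnd ℂ) (W b) / (nsq W : ℂ) * W b = W a := by
    have : ∑ b, W a * (starRingEnd ℂ) (W b) / (nsq W : ℂ) * W b = hh W W / nsq W * W a := by
      unfold hh
      rw [Finset.sum_div, Finset.sum_mul]
      exact Finset.sum_congr rfl fun b _ => by ring
    rw [this, hh_self, div_self h2, one_mul]
  rw [h5, h6] at h4
  exact h4

theorem continuous_pm_vec (i : Fin 3) : Continuous fun u => pm (vec i u) := by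
  refine continuous_pi fun a => continuous_pi fun b => ?_
  have hv : Continuous (vec i) := (contDiff_vec i).continuous
  have h1 : ∀ a, Continuous fun u => vec i u a := fun a => (continuous_apply a).comp hv
  refine ((h1 a).mul (Complex.continuous_conj.comp (h1 b))).div
    (Complex.continuous_ofReal.comp (continuous_nsq.comp hv)) fun u => ?_
  exact_mod_cast (nsq_pos (vec_ne i u)).ne'

/-- near an exceptional point -/
theorem inr_cover (l : ℙ ℂ C3) : ∃ i, ∃ u : C3, u i = 0 ∧ cB i u = Sum.inr l := by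
  obtain ⟨idx, u, hu, h⟩ := cov_all (Sum.inr l)
  rcases idx with p | i
  · change tM u = _ at h
    rw [tM_of (tor_DT_ne hu)] at h
    exact absurd h (by simp)
  · refine ⟨i, u, ?_, h⟩
    by_contra hi
    change cB i u = _ at h
    rw [cB_ne hi, tM_of (tor_bl_ne hu hi)] at h
    exact absurd h (by simp)

theorem mem_DB_of_zero {i : Fin 3} {u : C3} (h : u i = 0) : u ∈ DB i := by
  change nsq (bl i u) < 1 / 4
  rw [nsq_bl, h, map_zero, zero_mul]
  norm_num

theorem sep_exc {i j : Fin 3} {u v : C3} (hu : u i = 0) (hv : v j = 0) (h : cB i u ≠ cB j v) :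
    ∃ s t : Set PM.Sp, IsOpen s ∧ IsOpen t ∧ (cB i u : XX) ∈ (s : Set XX) ∧
      (cB j v : XX) ∈ (t : Set XX) ∧ Disjoint s t := by
  have h1 : pm (vec i u) ≠ pm (vec j v) := by
    intro h2
    apply h
    obtain ⟨a, ha⟩ := of_pm (vec_ne i u) (vec_ne j v) h2
    rw [cB_zero hu, cB_zero hv]
    congr 1
    exact (lin_eq.2 ⟨a, ha⟩).symm
  obtain ⟨U1, U2, hU1, hU2, hm1, hm2, hd⟩ := t2_separation h1
  have o1 := PM.isOpen_image (Sum.inr i) (V := DB i ∩ (fun w => pm (vec i w)) ⁻¹' U1)
    ((isOpen_DB i).inter (hU1.preimage (continuous_pm_vec i))) inter_subset_left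
  have o2 := PM.isOpen_image (Sum.inr j) (V := DB j ∩ (fun w => pm (vec j w)) ⁻¹' U2)
    ((isOpen_DB j).inter (hU2.preimage (continuous_pm_vec j))) inter_subset_left
  refine ⟨_, _, o1, o2, ⟨u, ⟨mem_DB_of_zero hu, hm1⟩, rfl⟩, ⟨v, ⟨mem_DB_of_zero hv, hm2⟩, rfl⟩, ?_⟩
  rw [Set.disjoint_left]
  rintro x ⟨w, ⟨hw, hw1⟩, rfl⟩ ⟨w', ⟨hw', hw1'⟩, he⟩
  obtain ⟨-, a, ha, h2⟩ := cB_eq hw' hw he
  have h3 : pm (vec j w') = pm (vec i w) := by rw [h2, pm_smul ha]
  have hw2 : pm (vec i w) ∈ U1 := hw1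
  have hw2' : pm (vec j w') ∈ U2 := hw1'
  rw [h3] at hw2'
  exact Set.disjoint_left.1 hd hw2 hw2'

instance : T2Space PM.Sp where
  t2 := by
    intro x y hxy
    by_cases hpi : pi0 x = pi0 y
    · obtain ⟨x, rfl⟩ : ∃ z : XX, z = x := ⟨x, rfl⟩
      obtain ⟨y, rfl⟩ : ∃ z : XX, z = y := ⟨y, rfl⟩
      rcases x with ⟨a, ha⟩ | l
      · rcases y with ⟨b, hb⟩ | l'
        · refine absurd ?_ hxy
          have : a = b := hpi
          subst this
          rfl
        · exact absurd (show a = 0 from hpi) ha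
      · rcases y with ⟨b, hb⟩ | l'
        · exact absurd (show (0 : T6) = b from hpi).symm hb
        · obtain ⟨i, u, hu, h1⟩ := inr_cover l
          obtain ⟨j, v, hv, h2⟩ := inr_cover l'
          have := sep_exc hu hv (by rw [h1, h2]; exact hxy)
          rw [h1, h2] at this
          exact this
    · exact separated_by_continuous continuous_pi0 hpi

/-- compact pieces near the exceptional divisor -/
def KB (i : Fin 3) : Set C3 :=
  {u | (∀ j, j ≠ i → Complex.normSq (u j) ≤ 1) ∧ nsq (bl i u) ≤ 1 / 5}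

theorem one_le_vec (i : Fin 3) (u : C3) : 1 ≤ nsq (vec i u) := by
  have := normSq_le_nsq (vec i u) i
  rwa [vec_same, map_one] at this

theorem isCompact_KB (i : Fin 3) : IsCompact (KB i) := by
  refine (isCompact_closedBall (0 : C3) 1).of_isClosed_subset ?_ fun u hu => ?_
  · have : KB i = (⋂ j : Fin 3, {u : C3 | j ≠ i → Complex.normSq (u j) ≤ 1}) ∩
        {u | nsq (bl i u) ≤ 1 / 5} := by
      ext u
      simp [KB]
    rw [this]
    refine IsClosed.inter (isClosed_iInter fun j => ?_)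
      (isClosed_le (continuous_nsq.comp (continuous_bl i)) continuous_const)
    by_cases hj : j = i
    · have : {u : C3 | j ≠ i → Complex.normSq (u j) ≤ 1} = univ := by
        ext u; simp [hj]
      rw [this]
      exact isClosed_univ
    · have : {u : C3 | j ≠ i → Complex.normSq (u j) ≤ 1} = {u : C3 | Complex.normSq (u j) ≤ 1} := by
        ext u; simp [hj]
      rw [this]
      exact isClosed_le (Complex.continuous_normSq.comp (continuous_apply j)) continuous_const
  · rw [mem_closedBall_zero_iff, pi_norm_le_iff_of_nonneg zero_le_one]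
    intro j
    have h1 : Complex.normSq (u j) ≤ 1 := by
      by_cases hj : j = i
      · have h2 := hu.2
        rw [nsq_bl] at h2
        have h3 := one_le_vec i u
        have h4 := Complex.normSq_nonneg (u i)
        rw [hj]
        nlinarith
      · exact hu.1 j hj
    rw [Complex.normSq_eq_norm_sq] at h1
    nlinarith [norm_nonneg (u j)]

theorem KB_subset (i : Fin 3) : KB i ⊆ DB i := fun u hu => by
  have h1 : nsq (bl i u) ≤ 1 / 5 := hu.2
  change nsq (bl i u) < 1 / 4
  linarith

/-- the rest of the torus -/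
def QQ : Set C3 :=
  {u | ∀ j, (u j).re ∈ Icc (0 : ℝ) 1 ∧ (u j).im ∈ Icc (0 : ℝ) 1} ∩ {u | tor u ∉ tor '' {a | nsq a < 1 / 5}}

theorem isOpenMap_tor : IsOpenMap tor := QuotientAddGroup.isOpenMap_coe

theorem isCompact_QQ : IsCompact QQ := by
  refine (isCompact_closedBall (0 : C3) 2).of_isClosed_subset ?_ fun u hu => ?_
  · refine IsClosed.inter ?_ ?_
    · have : {u : C3 | ∀ j, (u j).re ∈ Icc (0 : ℝ) 1 ∧ (u j).im ∈ Icc (0 : ℝ) 1} =
          ⋂ j : Fin 3, {u : C3 | (u j).re ∈ Icc (0 : ℝ) 1} ∩ {u : C3 | (u j).im ∈ Icc (0 : ℝ) 1} := by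
        ext u
        simp
      rw [this]
      refine isClosed_iInter fun j => ?_
      exact (isClosed_Icc.preimage (Complex.continuous_re.comp (continuous_apply j))).inter
        (isClosed_Icc.preimage (Complex.continuous_im.comp (continuous_apply j)))
    · exact ((isOpenMap_tor _ (isOpen_lt continuous_nsq continuous_const)).isClosed_compl).preimage
        continuous_tor
  · rw [mem_closedBall_zero_iff, pi_norm_le_iff_of_nonneg (by norm_num)]
    intro j
    obtain ⟨h1, h2⟩ := hu.1 j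
    have h3 := Complex.norm_le_abs_re_add_abs_im (u j)
    rw [abs_of_nonneg h1.1, abs_of_nonneg h2.1] at h3
    linarith [h1.2, h2.2]

theorem QQ_notMem {u : C3} (hu : u ∈ QQ) : tor u ∉ KK := by
  rintro ⟨a, ha, h⟩
  refine hu.2 ⟨a, ?_, h⟩
  have : nsq a ≤ 1 / 8 := ha
  change nsq a < 1 / 5
  linarith

/-- `tM` as a map to the manifold -/
noncomputable def tS (u : C3) : PM.Sp := tM u

theorem continuousOn_tM : ContinuousOn tS {u | tor u ∉ KK} := by
  intro u hu
  have h1 : u ∈ DT u := ⟨by simp [nsq], hu⟩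
  exact ((PM.par_continuousOn (Sum.inl u)).continuousAt ((isOpen_DT u).mem_nhds h1)).continuousWithinAt

theorem exists_max (a : C3) (ha : a ≠ 0) :
    ∃ i, a i ≠ 0 ∧ ∀ j, Complex.normSq (a j / a i) ≤ 1 := by
  obtain ⟨i, hi⟩ := Finite.exists_max fun j => Complex.normSq (a j)
  have h0 : a i ≠ 0 := by
    intro h
    apply ha
    funext j
    have := hi j
    simp only [h, map_zero] at this
    exact Complex.normSq_eq_zero.1 (le_antisymm this (Complex.normSq_nonneg _))
  refine ⟨i, h0, fun j => ?_⟩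
  rw [map_div₀]
  exact div_le_one_of_le₀ (hi j) (Complex.normSq_nonneg _)

/-- a point of the exceptional divisor in a chart -/
theorem lin_chart {v : C3} {i : Fin 3} (hi : v i ≠ 0) (hv : v ≠ 0) :
    cB i (Function.update (fun j => v j / v i) i 0) = Sum.inr (lin v hv) := by
  have hu : (Function.update (fun j => v j / v i) i 0 : C3) i = 0 := by simp
  rw [cB_zero hu]
  congr 1
  refine lin_eq.2 ⟨(v i)⁻¹, ?_⟩
  rw [vec_update]
  funext k
  by_cases hk : k = i
  · subst hk
    rw [vec_same, Pi.smul_apply, smul_eq_mul, inv_mul_cancel₀ hi]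
  · rw [vec, Function.update_of_ne hk, Pi.smul_apply, smul_eq_mul, div_eq_inv_mul]

theorem cover_compact (x : XX) : (∃ u ∈ QQ, tM u = x) ∨ ∃ i, ∃ u ∈ KB i, cB i u = x := by
  rcases x with ⟨x, hx⟩ | l
  · by_cases hK : x ∈ tor '' {a | nsq a < 1 / 5}
    · right
      obtain ⟨a, ha, rfl⟩ := hK
      have ha' : nsq a < 1 / 5 := ha
      have ha0 : a ≠ 0 := by
        rintro rfl
        exact hx tor_zero
      obtain ⟨i, hi, hmax⟩ := exists_max a ha0
      have h1 : blInv i a i ≠ 0 := by simpa [blInv] using hi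
      refine ⟨i, blInv i a, ⟨fun j hj => ?_, ?_⟩, ?_⟩
      · rw [blInv, Function.update_of_ne hj]
        exact hmax j
      · rw [bl_blInv hi]
        exact ha'.le
      · rw [cB_ne h1, bl_blInv hi, tM_of hx]
    · left
      obtain ⟨u, rfl⟩ := tor_surj x
      let l : C3 := fun j => ⟨(⌊(u j).re⌋ : ℝ), (⌊(u j).im⌋ : ℝ)⟩
      have hl : l ∈ Lat := fun j => ⟨_, _, rfl⟩
      have h1 : tor (u - l) = tor u := by
        rw [tor_eq]
        simpa using hl
      refine ⟨u - l, ⟨fun j => ⟨⟨?_, ?_⟩, ⟨?_, ?_⟩⟩, ?_⟩, ?_⟩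
      · change 0 ≤ (u j).re - ⌊(u j).re⌋
        linarith [Int.floor_le (u j).re]
      · change (u j).re - ⌊(u j).re⌋ ≤ 1
        linarith [Int.lt_floor_add_one (u j).re]
      · change 0 ≤ (u j).im - ⌊(u j).im⌋
        linarith [Int.floor_le (u j).im]
      · change (u j).im - ⌊(u j).im⌋ ≤ 1
        linarith [Int.lt_floor_add_one (u j).im]
      · change tor (u - l) ∉ _
        rw [h1]
        exact hK
      · rw [tM_congr h1, tM_of hx]
  · right
    induction l using Projectivization.ind with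
    | h v hv =>
      obtain ⟨i, hi, hmax⟩ := exists_max v hv
      refine ⟨i, Function.update (fun j => v j / v i) i 0, ⟨fun j hj => ?_, ?_⟩, lin_chart hi hv⟩
      · rw [Function.update_of_ne hj]
        exact hmax j
      · rw [nsq_bl]
        simp

instance : CompactSpace PM.Sp where
  isCompact_univ := by
    have h1 : (univ : Set PM.Sp) = tS '' QQ ∪
        ⋃ i : Fin 3, PM.par (Sum.inr i) '' KB i := by
      ext x
      simp only [mem_univ, mem_union, mem_iUnion, true_iff]
      rcases cover_compact x with ⟨u, hu, h⟩ | ⟨i, u, hu, h⟩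
      · exact Or.inl ⟨u, hu, h⟩
      · exact Or.inr ⟨i, u, hu, h⟩
    rw [h1]
    refine (isCompact_QQ.image_of_continuousOn
      (continuousOn_tM.mono fun u hu => QQ_notMem hu)).union ?_
    exact isCompact_iUnion fun i => (isCompact_KB i).image_of_continuousOn
      ((PM.par_continuousOn (Sum.inr i)).mono (KB_subset i))

instance : SecondCountableTopology PM.Sp := ChartedSpace.secondCountable_of_sigmaCompact C3 PM.Sp

end Pool.Agent.Work.MP_11690a_gt
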