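import Pool.Agent.Work.MP_11690a_gt.ConnDefs
import Pool.Agent.Work.MP_11690a_gt.Top

/-!
The blow-up of the torus is a connected sum of `CP3` and the torus.
-/

namespace Pool.Agent.Work.MP_11690a_gt

open scoped Manifold ContDiff Topology LinearAlgebra.Projectivization
open Set Filter

/-- scaling factor -/
noncomputable def sc (z : C3) (s : ℂ) : ℂ :=
  (starRingEnd ℂ) s / (2 * Real.sqrt (nsq z) * Real.sqrt (nsq z + Complex.normSq s) : ℝ)

theorem sc_smul {a : ℂ} (ha : a ≠ 0) (z : C3) (s : ℂ) : sc (a • z) (a * s) • (a • z) = sc z s • z := by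
  have h1 : (starRingEnd ℂ) a ≠ 0 := (map_ne_zero _).2 ha
  have h2 : 0 < Complex.normSq a := Complex.normSq_pos.2 ha
  have h3 : Real.sqrt (nsq (a • z)) * Real.sqrt (nsq (a • z) + Complex.normSq (a * s)) =
      Complex.normSq a * (Real.sqrt (nsq z) * Real.sqrt (nsq z + Complex.normSq s)) := by
    rw [nsq_smul, map_mul, ← mul_add, Real.sqrt_mul h2.le, Real.sqrt_mul h2.le]
    have := Real.mul_self_sqrt h2.le
    linear_combination (Real.sqrt (nsq z) * Real.sqrt (nsq z + Complex.normSq s)) * this
  have h4 : sc (a • z) (a * s) * a = sc z s := by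
    unfold sc
    rw [mul_assoc, h3, map_mul]
    have h5 : ((Complex.normSq a : ℝ) : ℂ) = (starRingEnd ℂ) a * a := Complex.normSq_eq_conj_mul_self
    push_cast
    rw [h5]
    field_simp
  rw [smul_smul, h4]

open Classical in
/-- the embedding in homogeneous coordinates -/
noncomputable def fz (z : C3) (s : ℂ) : XX :=
  if h : z = 0 then Sum.inr (lin (vec 0 0) (vec_ne 0 0))
  else if s = 0 then Sum.inr (lin z h) else tM (sc z s • z)

theorem fz_zero {z : C3} (h : z ≠ 0) : fz z 0 = Sum.inr (lin z h) := by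
  unfold fz
  rw [dif_neg h, if_pos rfl]

theorem fz_ne {z : C3} {s : ℂ} (h : z ≠ 0) (hs : s ≠ 0) : fz z s = tM (sc z s • z) := by
  unfold fz
  rw [dif_neg h, if_neg hs]

theorem fz_smul {a : ℂ} (ha : a ≠ 0) (z : C3) (s : ℂ) : fz (a • z) (a * s) = fz z s := by
  by_cases hz : z = 0
  · subst hz
    unfold fz
    rw [smul_zero, dif_pos rfl, dif_pos rfl]
  · have hz' : a • z ≠ 0 := smul_ne_zero ha hz
    by_cases hs : s = 0
    · subst hs
      rw [mul_zero, fz_zero hz, fz_zero hz']
      congr 1
      exact lin_eq.2 ⟨a, rfl⟩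
    · rw [fz_ne hz hs, fz_ne hz' (mul_ne_zero ha hs), sc_smul ha]

/-- the embedding of the punctured projective space -/
noncomputable def ff (x : CP3) : PM.Sp := fz x.rep.1 x.rep.2

theorem ff_mk (z : C3) (s : ℂ) (h : (z, s) ≠ 0) : ff (Projectivization.mk ℂ (z, s) h) = fz z s := by
  obtain ⟨a, ha⟩ := Projectivization.exists_smul_eq_mk_rep ℂ (z, s) h
  unfold ff
  rw [← ha]
  exact fz_smul a.ne_zero z s

open Classical in
/-- the embedding of the punctured torus -/
noncomputable def gg (x : T6) : PM.Sp :=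
  if h : x ≠ 0 then (Sum.inl ⟨x, h⟩ : XX) else (Sum.inr (lin (vec 0 0) (vec_ne 0 0)) : XX)

theorem gg_of {x : T6} (h : x ≠ 0) : gg x = (Sum.inl ⟨x, h⟩ : XX) := by
  unfold gg
  rw [dif_pos h]

theorem gg_tor (u : C3) : gg (tor u) = tM u := rfl

/-- chart expression of the embedding of the projective space -/
noncomputable def up (i : Fin 3) (u : C3) : C3 := Function.update u i (sc (vec i u) (u i))

/-- its inverse -/
noncomputable def dn (i : Fin 3) (w : C3) : C3 :=
  Function.update w i ((starRingEnd ℂ) (w i) *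
    (2 * nsq (vec i w) / Real.sqrt (1 - 4 * (nsq (vec i w) * Complex.normSq (w i))) : ℝ))

theorem normSq_sc (z : C3) (s : ℂ) (hz : z ≠ 0) :
    nsq z * Complex.normSq (sc z s) = Complex.normSq s / (4 * (nsq z + Complex.normSq s)) := by
  have h1 := nsq_pos hz
  have h2 := Complex.normSq_nonneg s
  unfold sc
  rw [map_div₀, Complex.normSq_conj, Complex.normSq_ofReal]
  have e1 := Real.mul_self_sqrt h1.le
  have e2 := Real.mul_self_sqrt (add_nonneg h1.le h2)
  have : 2 * Real.sqrt (nsq z) * Real.sqrt (nsq z + Complex.normSq s) *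
      (2 * Real.sqrt (nsq z) * Real.sqrt (nsq z + Complex.normSq s)) =
      4 * nsq z * (nsq z + Complex.normSq s) := by
    calc _ = 4 * (Real.sqrt (nsq z) * Real.sqrt (nsq z)) *
        (Real.sqrt (nsq z + Complex.normSq s) * Real.sqrt (nsq z + Complex.normSq s)) := by ring
      _ = _ := by rw [e1, e2]
  rw [this]
  have h3 : 0 < nsq z + Complex.normSq s := by linarith
  field_simp

theorem dn_up (i : Fin 3) (u : C3) : dn i (up i u) = u := by
  have hv : vec i (up i u) = vec i u := vec_update _ _ _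
  have hi : up i u i = sc (vec i u) (u i) := by simp [up]
  unfold dn
  rw [hv, hi]
  funext k
  by_cases hk : k = i
  · subst hk
    rw [Function.update_self, normSq_sc _ _ (vec_ne k u)]
    have h1 := nsq_pos (vec_ne k u)
    have h2 := Complex.normSq_nonneg (u k)
    have h3 : 0 < nsq (vec k u) + Complex.normSq (u k) := by linarith
    have h4 : 1 - 4 * (Complex.normSq (u k) / (4 * (nsq (vec k u) + Complex.normSq (u k)))) =
        nsq (vec k u) / (nsq (vec k u) + Complex.normSq (u k)) := by
      field_simp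
      ring
    rw [h4, Real.sqrt_div h1.le]
    unfold sc
    rw [map_div₀, Complex.conj_conj, Complex.conj_ofReal]
    have s1 : 0 < Real.sqrt (nsq (vec k u)) := Real.sqrt_pos.2 h1
    have s2 : 0 < Real.sqrt (nsq (vec k u) + Complex.normSq (u k)) := Real.sqrt_pos.2 h3
    have e1 := Real.mul_self_sqrt h1.le
    have h5 : 2 * nsq (vec k u) / (Real.sqrt (nsq (vec k u)) /
        Real.sqrt (nsq (vec k u) + Complex.normSq (u k))) =
        2 * Real.sqrt (nsq (vec k u)) * Real.sqrt (nsq (vec k u) + Complex.normSq (u k)) := by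
      rw [div_div_eq_mul_div, div_eq_iff s1.ne']
      linear_combination (-2 * Real.sqrt (nsq (vec k u) + Complex.normSq (u k))) * e1
    rw [h5]
    have h6 : ((2 * Real.sqrt (nsq (vec k u)) * Real.sqrt (nsq (vec k u) + Complex.normSq (u k)) : ℝ)
      : ℂ) ≠ 0 := by
      rw [Complex.ofReal_ne_zero]
      positivity
    rw [div_mul_cancel₀ _ h6]
  · rw [Function.update_of_ne hk, up, Function.update_of_ne hk]

theorem up_mem (i : Fin 3) (u : C3) : up i u ∈ DB i := by
  have hv : vec i (up i u) = vec i u := vec_update _ _ _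
  have hi : up i u i = sc (vec i u) (u i) := by simp [up]
  change nsq (bl i (up i u)) < 1 / 4
  rw [nsq_bl, hv, hi, mul_comm, normSq_sc _ _ (vec_ne i u)]
  have h1 := nsq_pos (vec_ne i u)
  have h2 := Complex.normSq_nonneg (u i)
  rw [div_lt_div_iff₀ (by linarith) (by norm_num)]
  linarith

theorem sc_ne {z : C3} {s : ℂ} (hz : z ≠ 0) (hs : s ≠ 0) : sc z s ≠ 0 := by
  have h1 := nsq_pos hz
  have h2 := Complex.normSq_pos.2 hs
  unfold sc
  refine div_ne_zero ((map_ne_zero _).2 hs) ?_
  rw [Complex.ofReal_ne_zero]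
  positivity

theorem ff_aff (i : Fin 3) (u : C3) : ff (aff (some i) u) = cB i (up i u) := by
  have hv : vec i (up i u) = vec i u := vec_update _ _ _
  have hi : up i u i = sc (vec i u) (u i) := by simp [up]
  unfold aff
  rw [ff_mk]
  by_cases h : u i = 0
  · have h1 : up i u i = 0 := by rw [hi, h]; simp [sc]
    rw [h, fz_zero (vec_ne i u), cB_zero h1]
    simp only [hv]
  · have h1 : up i u i ≠ 0 := by rw [hi]; exact sc_ne (vec_ne i u) h
    rw [fz_ne (vec_ne i u) h, cB_ne h1, bl, hv, hi]

theorem contDiff_up (i : Fin 3) : ContDiff ℝ ∞ (up i) := by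
  have hn : ContDiff ℝ ∞ fun u : C3 => nsq (vec i u) := contDiff_nsq.comp (contDiff_vec i)
  have hs : ContDiff ℝ ∞ fun u : C3 => Complex.normSq (u i) := by
    have : (fun u : C3 => Complex.normSq (u i)) = fun u => (u i).re * (u i).re + (u i).im * (u i).im := by
      funext u; rw [Complex.normSq_apply]
    rw [this]
    have h1 : ContDiff ℝ ∞ fun u : C3 => (u i).re := Complex.reCLM.contDiff.comp (contDiff_apply ℝ ℂ i)
    have h2 : ContDiff ℝ ∞ fun u : C3 => (u i).im := Complex.imCLM.contDiff.comp (contDiff_apply ℝ ℂ i)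
    exact (h1.mul h1).add (h2.mul h2)
  have hp1 : ∀ u : C3, 0 < nsq (vec i u) := fun u => nsq_pos (vec_ne i u)
  have hp2 : ∀ u : C3, 0 < nsq (vec i u) + Complex.normSq (u i) := fun u => by
    have := hp1 u
    have := Complex.normSq_nonneg (u i)
    linarith
  have hd : ContDiff ℝ ∞ fun u : C3 =>
      2 * Real.sqrt (nsq (vec i u)) * Real.sqrt (nsq (vec i u) + Complex.normSq (u i)) :=
    (contDiff_const.mul (hn.sqrt fun u => (hp1 u).ne')).mul
      ((hn.add hs).sqrt fun u => (hp2 u).ne')
  have hdc : ContDiff ℝ ∞ fun u : C3 => ((2 * Real.sqrt (nsq (vec i u)) *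
      Real.sqrt (nsq (vec i u) + Complex.normSq (u i)) : ℝ) : ℂ) := Complex.ofRealCLM.contDiff.comp hd
  have hsc : ContDiff ℝ ∞ fun u : C3 => sc (vec i u) (u i) := by
    unfold sc
    simp only [div_eq_mul_inv]
    refine ((Complex.conjCLE : ℂ →L[ℝ] ℂ).contDiff.comp (contDiff_apply ℝ ℂ i)).mul (hdc.inv fun u => ?_)
    rw [Complex.ofReal_ne_zero]
    have h1 := Real.sqrt_pos.2 (hp1 u)
    have h2 := Real.sqrt_pos.2 (hp2 u)
    positivity
  rw [contDiff_pi]
  intro k
  by_cases hk : k = i
  · subst hk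
    simp only [up, Function.update_self]
    exact hsc
  · simp only [up, Function.update_of_ne hk]
    exact contDiff_apply ℝ ℂ k

theorem differentiableAt_dn {i : Fin 3} {w : C3} (hw : w ∈ DB i) : DifferentiableAt ℝ (dn i) w := by
  have hn : ContDiff ℝ ∞ fun u : C3 => nsq (vec i u) := contDiff_nsq.comp (contDiff_vec i)
  have hs : ContDiff ℝ ∞ fun u : C3 => Complex.normSq (u i) := by
    have : (fun u : C3 => Complex.normSq (u i)) = fun u => (u i).re * (u i).re + (u i).im * (u i).im := by
      funext u; rw [Complex.normSq_apply]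
    rw [this]
    have h1 : ContDiff ℝ ∞ fun u : C3 => (u i).re := Complex.reCLM.contDiff.comp (contDiff_apply ℝ ℂ i)
    have h2 : ContDiff ℝ ∞ fun u : C3 => (u i).im := Complex.imCLM.contDiff.comp (contDiff_apply ℝ ℂ i)
    exact (h1.mul h1).add (h2.mul h2)
  have hpos : 0 < 1 - 4 * (nsq (vec i w) * Complex.normSq (w i)) := by
    have : nsq (bl i w) < 1 / 4 := hw
    rw [nsq_bl] at this
    linarith
  have h1 : ContDiffAt ℝ ∞ (fun u : C3 => 1 - 4 * (nsq (vec i u) * Complex.normSq (u i))) w :=
    (contDiff_const.sub (contDiff_const.mul (hn.mul hs))).contDiffAt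
  have h2 : ContDiffAt ℝ ∞ (fun u : C3 => 2 * nsq (vec i u) /
      Real.sqrt (1 - 4 * (nsq (vec i u) * Complex.normSq (u i)))) w :=
    (contDiff_const.mul hn).contDiffAt.div (h1.sqrt hpos.ne') (Real.sqrt_pos.2 hpos).ne'
  have h3 : ContDiffAt ℝ ∞ (dn i) w := by
    rw [contDiffAt_pi]
    intro k
    by_cases hk : k = i
    · subst hk
      simp only [dn, Function.update_self]
      refine ((Complex.conjCLE : ℂ →L[ℝ] ℂ).contDiff.comp (contDiff_apply ℝ ℂ k)).contDiffAt.mul ?_
      exact Complex.ofRealCLM.contDiff.contDiffAt.comp w h2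
    · simp only [dn, Function.update_of_ne hk]
      exact (contDiff_apply ℝ ℂ k).contDiffAt
  exact h3.differentiableAt (by simp)

/-- change between affine charts -/
noncomputable def ta (i : Fin 3) (u : C3) : C3 := Function.update (fun k => u k / u i) i (u i)⁻¹

theorem ta_ta {i : Fin 3} {u : C3} (h : u i ≠ 0) : ta i (ta i u) = u := by
  have h1 : ta i u i = (u i)⁻¹ := by simp [ta]
  funext k
  by_cases hk : k = i
  · subst hk
    rw [ta, Function.update_self, h1, inv_inv]
  · rw [ta, Function.update_of_ne hk, h1, ta, Function.update_of_ne hk]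
    field_simp

theorem contDiffAt_ta {i : Fin 3} {u : C3} (h : u i ≠ 0) : ContDiffAt ℝ ∞ (ta i) u := by
  rw [contDiffAt_pi]
  intro k
  have h1 : ∀ k, ContDiffAt ℝ ∞ (fun x : C3 => x k) u := fun k => (contDiff_apply ℝ ℂ k).contDiffAt
  by_cases hk : k = i
  · subst hk
    simp only [ta, Function.update_self]
    exact (h1 _).inv h
  · simp only [ta, Function.update_of_ne hk, div_eq_mul_inv]
    exact (h1 k).mul ((h1 i).inv h)

theorem aff_ta {i : Fin 3} {u : C3} (h : u i ≠ 0) : aff (some i) (ta i u) = aff none u := by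
  unfold aff
  rw [Projectivization.mk_eq_mk_iff']
  refine ⟨(u i)⁻¹, ?_⟩
  have h1 : ta i u i = (u i)⁻¹ := by simp [ta]
  rw [Prod.smul_mk, h1, smul_eq_mul, mul_one]
  congr 1
  funext k
  by_cases hk : k = i
  · subst hk
    rw [vec_same, Pi.smul_apply, smul_eq_mul, inv_mul_cancel₀ h]
  · rw [vec, Function.update_of_ne hk, ta, Function.update_of_ne hk, Pi.smul_apply, smul_eq_mul,
      div_eq_inv_mul]

theorem good_aff_some (i : Fin 3) (u : C3) : Good (fun w => ff (aff (some i) w)) u := by
  refine PM.good_map (j := Sum.inr i) (up i) (dn i) (contDiff_up i).contDiffAt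
    (differentiableAt_dn (up_mem i u)) (up_mem i u) (Eventually.of_forall fun w => ff_aff i w)
    (Eventually.of_forall fun w => dn_up i w)

theorem good_aff_none {u : C3} (hu : u ≠ 0) : Good (fun w => ff (aff none w)) u := by
  obtain ⟨i, hi⟩ : ∃ i, u i ≠ 0 := by
    by_contra hcon
    push Not at hcon
    exact hu (funext hcon)
  have hev : ∀ᶠ w : C3 in 𝓝 u, w i ≠ 0 := (continuous_apply i).continuousAt.eventually_ne hi
  have h1 : ta i u i ≠ 0 := by simpa [ta] using hi
  refine PM.good_map (j := Sum.inr i) (up i ∘ ta i) (ta i ∘ dn i)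
    ((contDiff_up i).contDiffAt.comp u (contDiffAt_ta hi)) ?_ (up_mem i _) ?_ ?_
  · have h2 : DifferentiableAt ℝ (ta i) (dn i ((up i ∘ ta i) u)) := by
      rw [Function.comp_apply, dn_up]
      exact (contDiffAt_ta h1).differentiableAt (by simp)
    exact h2.comp _ (differentiableAt_dn (up_mem i _))
  · filter_upwards [hev] with w hw
    rw [← aff_ta hw, ff_aff]
    rfl
  · filter_upwards [hev] with w hw
    simp only [Function.comp_apply]
    rw [dn_up, ta_ta hw]

theorem good_tor {u : C3} (hu : tor u ≠ 0) : Good (fun w => gg (tor w)) u := by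
  by_cases hK : tor u ∈ KK
  · obtain ⟨a, ha, hau⟩ := hK
    have ha' : nsq a ≤ 1 / 8 := ha
    have ha0 : a ≠ 0 := by
      rintro rfl
      exact hu (hau ▸ tor_zero)
    obtain ⟨i, hi⟩ : ∃ i, a i ≠ 0 := by
      by_contra hcon
      push Not at hcon
      exact ha0 (funext hcon)
    have hl : u - a ∈ Lat := tor_eq.1 hau.symm
    have h0 : u - (u - a) = a := by abel
    have hi' : (u - (u - a)) i ≠ 0 := by rw [h0]; exact hi
    have hev : ∀ᶠ w : C3 in 𝓝 u, (w - (u - a)) i ≠ 0 :=
      ((continuous_apply i).comp (continuous_id.sub continuous_const)).continuousAt.eventually_ne hi'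
    refine PM.good_map (j := Sum.inr i) (fun w => blInv i (w - (u - a))) (fun w => bl i w + (u - a))
      ((contDiffAt_blInv hi').comp u (contDiff_id.sub contDiff_const).contDiffAt) ?_ ?_ ?_ ?_
    · exact (((contDiff_bl i).differentiable (by simp) _).add_const _)
    · change nsq (bl i (blInv i (u - (u - a)))) < 1 / 4
      rw [h0, bl_blInv hi]
      linarith
    · filter_upwards [hev] with w hw
      change tM w = cB i (blInv i (w - (u - a)))
      have h1 : blInv i (w - (u - a)) i ≠ 0 := by
        simpa [blInv] using hw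
      rw [cB_ne h1, bl_blInv hw]
      refine tM_congr ?_
      rw [tor_eq]
      have : w - (w - (u - a)) = u - a := by abel
      rw [this]
      exact hl
    · filter_upwards [hev] with w hw
      rw [bl_blInv hw]
      abel
  · have h1 : u ∈ DT u := ⟨by simp [nsq], hK⟩
    exact PM.good_map (j := Sum.inl u) id id contDiffAt_id differentiableAt_id h1
      (Eventually.of_forall fun w => rfl) (Eventually.of_forall fun w => rfl)

theorem aff_cases (x : CP3) : x = aff none 0 ∨ ∃ i u, x = aff (some i) u := by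
  induction x using Projectivization.ind with
  | h v hv =>
    obtain ⟨z, s⟩ := v
    by_cases hz : z = 0
    · left
      subst hz
      unfold aff
      rw [Projectivization.mk_eq_mk_iff']
      exact ⟨s, by simp⟩
    · right
      obtain ⟨i, hi⟩ : ∃ i, z i ≠ 0 := by
        by_contra hcon
        push Not at hcon
        exact hz (funext hcon)
      refine ⟨i, Function.update (fun k => z k / z i) i (s / z i), ?_⟩
      unfold aff
      rw [Projectivization.mk_eq_mk_iff']
      refine ⟨z i, ?_⟩
      rw [vec_update, Prod.smul_mk, Function.update_self, smul_eq_mul, mul_div_cancel₀ _ hi]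
      congr 1
      funext k
      by_cases hk : k = i
      · subst hk
        rw [Pi.smul_apply, vec_same, smul_eq_mul, mul_one]
      · rw [Pi.smul_apply, vec, Function.update_of_ne hk, smul_eq_mul, mul_div_cancel₀ _ hi]

theorem ff_injOn : InjOn ff {aff none 0}ᶜ := by
  intro x hx y hy h
  obtain ⟨i, u, rfl⟩ := (aff_cases x).resolve_left hx
  obtain ⟨j, v, rfl⟩ := (aff_cases y).resolve_left hy
  rw [ff_aff, ff_aff] at h
  obtain ⟨-, a, ha, h2⟩ := cB_eq (up_mem i u) (up_mem j v) h
  rw [up, up, vec_update, vec_update] at h2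
  have h3 : aff (some i) u = aff (some j) (Function.update v j (a⁻¹ * u i)) := by
    unfold aff
    rw [Projectivization.mk_eq_mk_iff']
    refine ⟨a, ?_⟩
    rw [vec_update, Prod.smul_mk, ← h2, Function.update_self, smul_eq_mul, mul_inv_cancel_left₀ ha]
  rw [← ff_aff, ← ff_aff, h3, ff_aff, ff_aff] at h
  have h4 := injOn_cB j (up_mem j _) (up_mem j _) h
  have h5 := congrArg (dn j) h4
  rw [dn_up, dn_up] at h5
  rw [h3, h5]

theorem gg_injOn : InjOn gg {0}ᶜ := by
  intro x hx y hy h
  rw [gg_of hx, gg_of hy] at h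
  exact congrArg Subtype.val (Sum.inl_injective h)

theorem sc_one (v : C3) (hv : v ≠ 0) : sc v 1 • v = disc ((nsq v)⁻¹ • v) := by
  have h1 := nsq_pos hv
  have s1 := Real.sqrt_pos.2 h1
  have e1 := Real.mul_self_sqrt h1.le
  have h2 : nsq ((nsq v)⁻¹ • v) = (nsq v)⁻¹ := by
    have : (nsq v)⁻¹ • v = (((nsq v)⁻¹ : ℝ) : ℂ) • v := by
      funext k; simp
    rw [this, nsq_smul, Complex.normSq_ofReal]
    field_simp
  unfold disc
  rw [h2, smul_smul]
  have h3 : Real.sqrt (1 + (nsq v)⁻¹) = Real.sqrt (nsq v + 1) / Real.sqrt (nsq v) := by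
    rw [← Real.sqrt_div (by linarith)]
    congr 1
    field_simp
  have h4 : (2 * Real.sqrt (1 + (nsq v)⁻¹))⁻¹ * (nsq v)⁻¹ =
      1 / (2 * Real.sqrt (nsq v) * Real.sqrt (nsq v + 1)) := by
    have s2 : 0 < Real.sqrt (nsq v + 1) := Real.sqrt_pos.2 (by linarith)
    rw [h3]
    field_simp
    rw [sq, e1]
  rw [h4]
  unfold sc
  funext k
  simp

theorem ff_none {v : C3} (hv : v ≠ 0) : ff (aff none v) = tM (disc ((nsq v)⁻¹ • v)) := by
  unfold aff
  rw [ff_mk, fz_ne hv one_ne_zero, sc_one v hv]

theorem isConnSum_PM : IsConnSum ff gg where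
  f_inj := ff_injOn
  g_inj := gg_injOn
  f_smooth := by
    rintro (_ | i) u hu
    · exact good_aff_none fun h => hu (by rw [h])
    · exact good_aff_some i u
  g_smooth := fun u hu => good_tor hu
  cover := by
    intro x
    obtain ⟨x, rfl⟩ : ∃ z : XX, z = x := ⟨x, rfl⟩
    rcases x with ⟨b, hb⟩ | l
    · exact Or.inr ⟨b, hb, gg_of hb⟩
    · left
      obtain ⟨i, u, hu, h⟩ := inr_cover l
      refine ⟨aff (some i) u, ?_, ?_⟩
      · intro h1
        unfold aff at h1
        rw [Projectivization.mk_eq_mk_iff'] at h1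
        obtain ⟨a, ha⟩ := h1
        rw [Prod.smul_mk, smul_zero, Prod.mk.injEq] at ha
        exact vec_ne i u ha.1.symm
      · rw [ff_aff, up, hu]
        have : sc (vec i u) 0 = 0 := by simp [sc]
        rw [this, ← hu, Function.update_eq_self]
        exact h
  glue := by
    intro a b ha hb
    rw [gg_of hb]
    constructor
    · intro h
      obtain ⟨i, u, rfl⟩ := (aff_cases a).resolve_left ha
      have hi : u i ≠ 0 := by
        intro hi
        have h1 : up i u i = 0 := by simp [up, sc, hi]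
        rw [ff_aff, cB_zero h1] at h
        exact absurd h (by simp)
      have h1 : ta i u i ≠ 0 := by simpa [ta] using hi
      have hv : ta i u ≠ 0 := fun h2 => h1 (by rw [h2]; rfl)
      have h2 : aff (some i) u = aff none (ta i u) := by rw [← aff_ta h1, ta_ta hi]
      refine ⟨ta i u, hv, h2, ?_⟩
      rw [h2, ff_none hv] at h
      by_cases h3 : tor (disc ((nsq (ta i u))⁻¹ • ta i u)) ≠ 0
      · rw [tM_of h3] at h
        exact (congrArg Subtype.val (Sum.inl_injective h)).symm
      · unfold tM at h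
        rw [dif_neg h3] at h
        exact absurd h (by simp)
    · rintro ⟨v, hv, rfl, rfl⟩
      rw [ff_none hv]
      exact tM_of hb

/-- the connected sum of `CP3` and the torus carries a symplectic structure -/
theorem main : ∃ (M : Type) (_ : TopologicalSpace M) (_ : ChartedSpace C3 M),
    ClosedManifold C3 M ∧ (∃ (f : CP3 → M) (g : T6 → M), IsConnSum f g) ∧ HasSymplectic C3 M :=
  ⟨PM.Sp, inferInstance, inferInstance, ⟨inferInstance, inferInstance, inferInstance, inferInstance⟩,
    ⟨ff, gg, isConnSum_PM⟩, PM.form om, symplectic_PM⟩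

end Pool.Agent.Work.MP_11690a_gt
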