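import Pool.Agent.Work.MP_11690a_gt.FormDefs

/-!
Complex projective 3-space, the 6-torus, and connected sums of the two.
-/

namespace Pool.Agent.Work.MP_11690a_gt

open scoped LinearAlgebra.Projectivization
open Set

/-- complex 3-space, used as a real vector space of dimension 6 -/
abbrev C3 : Type := Fin 3 → ℂ

/-- square of the euclidean norm -/
noncomputable def nsq (a : C3) : ℝ := ∑ j, Complex.normSq (a j)

/-- the lattice `ℤ[i]³` -/
def Lat : AddSubgroup C3 where
  carrier := {x | ∀ j, ∃ m n : ℤ, x j = ⟨m, n⟩}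
  zero_mem' := fun j => ⟨0, 0, by simp [Complex.ext_iff]⟩
  add_mem' := by
    intro a b ha hb j
    obtain ⟨m, n, h⟩ := ha j
    obtain ⟨m', n', h'⟩ := hb j
    exact ⟨m + m', n + n', by simp [Complex.ext_iff, h, h']⟩
  neg_mem' := by
    intro a ha j
    obtain ⟨m, n, h⟩ := ha j
    exact ⟨-m, -n, by simp [Complex.ext_iff, h]⟩

/-- the 6-torus `ℂ³ / ℤ[i]³` -/
abbrev T6 : Type := C3 ⧸ Lat

/-- the covering map of the torus; its local inverses are the charts of the torus -/
def tor (u : C3) : T6 := QuotientAddGroup.mk u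

/-- the vector `u` with the `i`-th entry replaced by `1` -/
def vec (i : Fin 3) (u : C3) : C3 := Function.update u i 1

theorem vec_same (i : Fin 3) (u : C3) : vec i u i = 1 := by simp [vec]

theorem vec_ne (i : Fin 3) (u : C3) : vec i u ≠ 0 := fun h => by
  have := congrFun h i
  rw [vec_same] at this
  exact one_ne_zero this

/-- complex projective 3-space: the lines of `ℂ³ × ℂ` -/
abbrev CP3 : Type := ℙ ℂ (C3 × ℂ)

/-- the four affine charts of `CP3` (inverses of the standard charts): `u ↦ [u : 1]`, and for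
`i = 0, 1, 2` the map which sends `u` to `[z : u i]`, where `z` is `u` with the `i`-th entry replaced
by `1` -/
noncomputable def aff : Option (Fin 3) → C3 → CP3
  | none, u => Projectivization.mk ℂ (u, 1) (by simp)
  | some i, u => Projectivization.mk ℂ (vec i u, u i) (fun h => vec_ne i u (congrArg Prod.fst h))

/-- diffeomorphism of `ℂ³` onto the open ball of radius `1 / 2` -/
noncomputable def disc (w : C3) : C3 := (2 * Real.sqrt (1 + nsq w))⁻¹ • w

/-- The manifold `M` is a connected sum of `CP3` and the torus `T6`, by means of the open embeddings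
`f` of `CP3` minus the point `[0 : 1]` and `g` of the torus minus the point `0`: the punctured affine
chart `{[v : 1]}` is glued with the punctured ball of radius `1 / 2` in the torus by the map
`v ↦ v / |v|² ↦ disc (v / |v|²)`. The values of `f` at `[0 : 1]` and of `g` at `0` play no role. -/
structure IsConnSum {M : Type} [TopologicalSpace M] [ChartedSpace C3 M]
    (f : CP3 → M) (g : T6 → M) : Prop where
  f_inj : InjOn f {aff none 0}ᶜ
  g_inj : InjOn g {0}ᶜ
  f_smooth : ∀ i u, aff i u ≠ aff none 0 → Good (fun w => f (aff i w)) u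
  g_smooth : ∀ u, tor u ≠ 0 → Good (fun w => g (tor w)) u
  cover : ∀ x, (∃ a, a ≠ aff none 0 ∧ f a = x) ∨ ∃ b, b ≠ 0 ∧ g b = x
  glue : ∀ a b, a ≠ aff none 0 → b ≠ 0 →
    (f a = g b ↔ ∃ v : C3, v ≠ 0 ∧ a = aff none v ∧ b = tor (disc ((nsq v)⁻¹ • v)))

end Pool.Agent.Work.MP_11690a_gt
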