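import Mathlib

/-!
A cut-off function.
-/

namespace Pool.Agent.Work.MP_11690a_gt

open scoped ContDiff Topology
open Set Filter

/-- smooth step: `0` for `x ≤ 1/16`, `1` for `x ≥ 1/8` -/
noncomputable def sm (x : ℝ) : ℝ := Real.smoothTransition (16 * x - 1)

theorem contDiff_sm : ContDiff ℝ ∞ sm :=
  Real.smoothTransition.contDiff.comp ((contDiff_const.mul contDiff_id).sub contDiff_const)

theorem sm_zero {x : ℝ} (h : x ≤ 1 / 16) : sm x = 0 :=
  Real.smoothTransition.zero_of_nonpos (by linarith)

theorem sm_one {x : ℝ} (h : 1 / 8 ≤ x) : sm x = 1 :=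
  Real.smoothTransition.one_of_one_le (by linarith)

theorem sm_le (x : ℝ) : sm x ≤ 1 := Real.smoothTransition.le_one _

theorem deriv_sm_bound : ∃ e : ℝ, 0 < e ∧ ∀ x, e * deriv sm x < 1 := by
  have hc : Continuous (deriv sm) := contDiff_sm.continuous_deriv (by simp)
  obtain ⟨C, hC⟩ := (isCompact_Icc (a := (0 : ℝ)) (b := 1)).exists_bound_of_continuousOn
    hc.continuousOn
  have hC0 : 0 ≤ C := (norm_nonneg _).trans (hC 0 (by norm_num))
  have hb : ∀ x, deriv sm x ≤ C := by
    intro x
    by_cases h0 : x < 0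
    · have : sm =ᶠ[𝓝 x] fun _ => 0 := by
        filter_upwards [eventually_lt_nhds h0] with y hy
        exact sm_zero (by linarith)
      rw [this.deriv_eq, deriv_const]
      exact hC0
    · by_cases h1 : 1 < x
      · have : sm =ᶠ[𝓝 x] fun _ => 1 := by
          filter_upwards [eventually_gt_nhds h1] with y hy
          exact sm_one (by linarith)
        rw [this.deriv_eq, deriv_const]
        exact hC0
      · exact (le_abs_self _).trans (hC x ⟨by linarith, by linarith⟩)
  refine ⟨1 / (C + 1), by positivity, fun x => ?_⟩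
  rw [div_mul_eq_mul_div, one_mul, div_lt_one (by positivity)]
  linarith [hb x]

/-- the size of the exceptional divisor -/
noncomputable def ep : ℝ := deriv_sm_bound.choose

theorem ep_pos : 0 < ep := deriv_sm_bound.choose_spec.1

theorem ep_lt (x : ℝ) : ep * deriv sm x < 1 := deriv_sm_bound.choose_spec.2 x

/-- the radial profile -/
noncomputable def kf (x : ℝ) : ℝ := 1 - ep * (sm x / x)

theorem mul_kf (x : ℝ) : x * kf x = x - ep * sm x := by
  unfold kf
  by_cases h : x = 0
  · subst h
    rw [sm_zero (by norm_num)]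
    simp
  · field_simp

theorem contDiff_kf : ContDiff ℝ ∞ kf := by
  rw [contDiff_iff_contDiffAt]
  intro x
  by_cases h : x < 1 / 16
  · have : kf =ᶠ[𝓝 x] fun _ => 1 := by
      filter_upwards [eventually_lt_nhds h] with y hy
      unfold kf
      rw [sm_zero hy.le]
      simp
    exact contDiffAt_const.congr_of_eventuallyEq this
  · have hx : x ≠ 0 := by
      rintro rfl
      norm_num at h
    exact contDiffAt_const.sub (contDiffAt_const.mul (contDiff_sm.contDiffAt.div contDiffAt_id hx))

theorem kf_add (x : ℝ) : kf x + x * deriv kf x = 1 - ep * deriv sm x := by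
  have h1 : HasDerivAt (fun x => x * kf x) (1 * kf x + x * deriv kf x) x :=
    (hasDerivAt_id x).mul (contDiff_kf.differentiable (by simp) x).hasDerivAt
  have h2 : HasDerivAt (fun x => x - ep * sm x) (1 - ep * deriv sm x) x :=
    (hasDerivAt_id x).sub ((contDiff_sm.differentiable (by simp) x).hasDerivAt.const_mul ep)
  have h3 : (fun x => x * kf x) = fun x => x - ep * sm x := funext mul_kf
  rw [h3] at h1
  have := h1.unique h2
  linarith

theorem kf_add_pos (x : ℝ) : 0 < kf x + x * deriv kf x := by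
  rw [kf_add]
  linarith [ep_lt x]

theorem mul_kf_add_pos {x : ℝ} (hx : 0 ≤ x) : 0 < x * kf x + ep := by
  rw [mul_kf]
  have h1 := ep_pos
  rcases hx.eq_or_lt with h | h
  · rw [← h, sm_zero (by norm_num)]
    linarith
  · have := mul_le_mul_of_nonneg_left (sm_le x) h1.le
    linarith

theorem kf_eq {x : ℝ} (hx : 1 / 8 < x) : kf x = 1 - ep * (1 / x) := by
  unfold kf
  rw [sm_one hx.le]

theorem deriv_kf_eq {x : ℝ} (hx : 1 / 8 < x) : deriv kf x = ep * (1 / x ^ 2) := by
  have h1 : kf =ᶠ[𝓝 x] fun x => 1 - ep * x⁻¹ := by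
    filter_upwards [eventually_gt_nhds hx] with y hy
    rw [kf_eq hy, one_div]
  have hx0 : x ≠ 0 := by
    rintro rfl
    norm_num at hx
  rw [h1.deriv_eq]
  have h2 : HasDerivAt (fun x => 1 - ep * x⁻¹) (0 - ep * (-(x ^ 2)⁻¹)) x :=
    (hasDerivAt_const x 1).sub ((hasDerivAt_inv hx0).const_mul ep)
  rw [h2.deriv, one_div]
  ring

end Pool.Agent.Work.MP_11690a_gt
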