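import Mathlib

/-!
Symplectic forms on a smooth manifold without boundary, modelled on a real normed space.
-/

namespace Pool.Agent.Work.MP_11690a_gt

open scoped Manifold ContDiff Topology

section forms

variable {E : Type*} [NormedAddCommGroup E] [NormedSpace ℝ E]
  {M : Type*} [TopologicalSpace M] [ChartedSpace E M] {k : ℕ}

/-- The coordinate expression, in a chart `e`, of a field `θ` of alternating `k`-forms on the
tangent spaces of the manifold `M`: the pullback of `θ` under the inverse of the chart. -/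
noncomputable def localForm (θ : ∀ x : M, TangentSpace 𝓘(ℝ, E) x [⋀^Fin k]→L[ℝ] ℝ)
    (e : OpenPartialHomeomorph M E) (y : E) : E [⋀^Fin k]→L[ℝ] ℝ :=
  (θ (e.symm y)).compContinuousLinearMap (mfderiv 𝓘(ℝ, E) 𝓘(ℝ, E) e.symm y)

/-- `θ` is a smooth differential form: its coordinate expressions are smooth. -/
def SmoothForm (θ : ∀ x : M, TangentSpace 𝓘(ℝ, E) x [⋀^Fin k]→L[ℝ] ℝ) : Prop :=
  ∀ e ∈ atlas E M, ContDiffOn ℝ ∞ (localForm θ e) e.target

/-- `θ` is a closed form: `d θ = 0` in all charts. -/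
def ClosedForm (θ : ∀ x : M, TangentSpace 𝓘(ℝ, E) x [⋀^Fin k]→L[ℝ] ℝ) : Prop :=
  ∀ e ∈ atlas E M, ∀ y ∈ e.target, extDeriv (localForm θ e) y = 0

/-- A symplectic structure: a smooth closed 2-form, nondegenerate at every point. -/
def IsSymplectic (θ : ∀ x : M, TangentSpace 𝓘(ℝ, E) x [⋀^Fin 2]→L[ℝ] ℝ) : Prop :=
  SmoothForm θ ∧ ClosedForm θ ∧ ∀ x v, (∀ w, θ x ![v, w] = 0) → v = 0

end forms

/-- The manifold `M`, modelled on `E`, carries a symplectic structure. -/
def HasSymplectic (E M : Type) [NormedAddCommGroup E] [NormedSpace ℝ E] [TopologicalSpace M]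
    [ChartedSpace E M] : Prop :=
  ∃ θ : ∀ x : M, TangentSpace 𝓘(ℝ, E) x [⋀^Fin 2]→L[ℝ] ℝ, IsSymplectic θ

/-- `M` is a closed smooth manifold modelled on `E`: smooth, without boundary, Hausdorff, second
countable and compact. -/
def ClosedManifold (E M : Type) [NormedAddCommGroup E] [NormedSpace ℝ E] [TopologicalSpace M]
    [ChartedSpace E M] : Prop :=
  IsManifold 𝓘(ℝ, E) ∞ M ∧ T2Space M ∧ SecondCountableTopology M ∧ CompactSpace M

/-- `F` is smooth and has bijective differential at `u`. -/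
def Good {E M : Type} [NormedAddCommGroup E] [NormedSpace ℝ E] [TopologicalSpace M]
    [ChartedSpace E M] (F : E → M) (u : E) : Prop :=
  ContMDiffAt 𝓘(ℝ, E) 𝓘(ℝ, E) ∞ F u ∧ Function.Bijective (mfderiv 𝓘(ℝ, E) 𝓘(ℝ, E) F u)

end Pool.Agent.Work.MP_11690a_gt
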