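import Pool.Agent.Work.MP_11690a_gt.ConnDefs

/-!
The hermitian product on `ℂ³` and exterior derivatives of `k(|F|²) Im ⟨F, dF⟩ / 2`.
-/

namespace Pool.Agent.Work.MP_11690a_gt

open scoped ContDiff Topology
open Set Filter

/-- hermitian product -/
noncomputable def hh (a b : C3) : ℂ := ∑ j, (starRingEnd ℂ) (a j) * b j

/-- hermitian product as a continuous bilinear map -/
noncomputable def HB : C3 →L[ℝ] C3 →L[ℝ] ℂ :=
  ∑ j : Fin 3, (ContinuousLinearMap.mul ℝ ℂ).bilinearComp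
    ((Complex.conjCLE : ℂ →L[ℝ] ℂ) ∘L ContinuousLinearMap.proj (R := ℝ) (φ := fun _ : Fin 3 => ℂ) j)
    (ContinuousLinearMap.proj (R := ℝ) (φ := fun _ : Fin 3 => ℂ) j)

theorem HB_apply (a b : C3) : HB a b = hh a b := by
  simp [HB, hh]

theorem hh_conj (a b : C3) : (starRingEnd ℂ) (hh a b) = hh b a := by
  simp only [hh, map_sum, map_mul, Complex.conj_conj]
  exact Finset.sum_congr rfl fun j _ => mul_comm _ _

theorem hh_self (a : C3) : hh a a = (nsq a : ℂ) := by
  simp only [hh, nsq, Complex.ofReal_sum]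
  refine Finset.sum_congr rfl fun j _ => ?_
  rw [mul_comm, Complex.mul_conj]

theorem hh_self_re (a : C3) : (hh a a).re = nsq a := by rw [hh_self]; simp

theorem nsq_eq (a : C3) : nsq a = (HB a a).re := by rw [HB_apply, hh_self_re]

theorem hh_add_left (a b c : C3) : hh (a + b) c = hh a c + hh b c := by
  rw [← HB_apply, ← HB_apply, ← HB_apply, map_add]; rfl

theorem hh_add_right (a b c : C3) : hh a (b + c) = hh a b + hh a c := by
  rw [← HB_apply, ← HB_apply, ← HB_apply, map_add]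

theorem hh_smul_left (s : ℂ) (a b : C3) : hh (s • a) b = (starRingEnd ℂ) s * hh a b := by
  simp only [hh, Pi.smul_apply, smul_eq_mul, map_mul, Finset.mul_sum]
  exact Finset.sum_congr rfl fun j _ => by ring

theorem hh_smul_right (s : ℂ) (a b : C3) : hh a (s • b) = s * hh a b := by
  simp only [hh, Pi.smul_apply, smul_eq_mul, Finset.mul_sum]
  exact Finset.sum_congr rfl fun j _ => by ring

theorem nsq_smul (s : ℂ) (a : C3) : nsq (s • a) = Complex.normSq s * nsq a := by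
  simp only [nsq, Pi.smul_apply, smul_eq_mul, map_mul, Finset.mul_sum]

theorem nsq_nonneg (a : C3) : 0 ≤ nsq a := Finset.sum_nonneg fun _ _ => Complex.normSq_nonneg _

theorem normSq_le_nsq (a : C3) (j : Fin 3) : Complex.normSq (a j) ≤ nsq a :=
  Finset.single_le_sum (f := fun j => Complex.normSq (a j))
    (fun _ _ => Complex.normSq_nonneg _) (Finset.mem_univ j)

theorem nsq_eq_zero {a : C3} : nsq a = 0 ↔ a = 0 := by
  constructor
  · intro h
    funext j
    have := normSq_le_nsq a j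
    rw [h] at this
    exact Complex.normSq_eq_zero.1 (le_antisymm this (Complex.normSq_nonneg _))
  · rintro rfl
    simp [nsq]

theorem nsq_pos {a : C3} (h : a ≠ 0) : 0 < nsq a :=
  lt_of_le_of_ne (nsq_nonneg a) fun h1 => h (nsq_eq_zero.1 h1.symm)

theorem contDiff_HB {F G : C3 → C3} {n : WithTop ℕ∞} {s : Set C3} (hF : ContDiffOn ℝ n F s)
    (hG : ContDiffOn ℝ n G s) : ContDiffOn ℝ n (fun x => hh (F x) (G x)) s := by
  have : (fun x => hh (F x) (G x)) = fun x => HB (F x) (G x) := by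
    funext x; rw [HB_apply]
  rw [this]
  exact (HB.contDiff.comp_contDiffOn hF).clm_apply hG

theorem contDiff_nsq : ContDiff ℝ ∞ nsq := by
  have : nsq = fun x => (HB x x).re := funext nsq_eq
  rw [this]
  exact Complex.reCLM.contDiff.comp (HB.contDiff.clm_apply contDiff_id)

theorem continuous_nsq : Continuous nsq := contDiff_nsq.continuous

theorem hasFDerivAt_of_eq {E G : Type*} [NormedAddCommGroup E] [NormedSpace ℝ E]
    [NormedAddCommGroup G] [NormedSpace ℝ G] {f : E → G} {f' g' : E →L[ℝ] G} {x : E}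
    (h : HasFDerivAt f f' x) (e : ∀ w, f' w = g' w) : HasFDerivAt f g' x := by
  have : f' = g' := ContinuousLinearMap.ext e
  rw [← this]
  exact h

theorem hasFDerivAt_nsq (a : C3) :
    HasFDerivAt nsq ((2 : ℝ) • (Complex.reCLM ∘L HB a)) a := by
  have h0 : nsq = fun x => (HB x x).re := funext nsq_eq
  rw [h0]
  have h1 : HasFDerivAt (fun x : C3 => HB x x) (HB.flip a + HB a) a := by
    have := (HB.hasFDerivAt (x := a)).clm_apply (hasFDerivAt_id a)
    refine hasFDerivAt_of_eq this fun w => ?_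
    change HB a w + HB w a = HB w a + HB a w
    ring
  have h2 := Complex.reCLM.hasFDerivAt.comp a h1
  refine hasFDerivAt_of_eq h2 fun w => ?_
  change (HB w a + HB a w).re = (2 : ℝ) * (HB a w).re
  rw [HB_apply, HB_apply, Complex.add_re, ← hh_conj a w, Complex.conj_re]
  ring

/-- the 1-form `k(|F|²) Im ⟨F, dF⟩ / 2` as a field of linear forms -/
noncomputable def gam1 (k : ℝ → ℝ) (F : C3 → C3) (x : C3) : C3 →L[ℝ] ℝ :=
  (k (nsq (F x)) / 2) • (Complex.imCLM ∘L (HB (F x)) ∘L (fderiv ℝ F x))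

/-- the 1-form `k(|F|²) Im ⟨F, dF⟩ / 2` -/
noncomputable def gam (k : ℝ → ℝ) (F : C3 → C3) (x : C3) : C3 [⋀^Fin 1]→L[ℝ] ℝ :=
  ContinuousAlternatingMap.ofSubsingletonLIE (𝕜 := ℝ) (E := C3) (F := ℝ) (0 : Fin 1) (gam1 k F x)

theorem gam1_apply (k : ℝ → ℝ) (F : C3 → C3) (x w : C3) :
    gam1 k F x w = k (nsq (F x)) / 2 * (hh (F x) (fderiv ℝ F x w)).im := by
  simp [gam1, HB_apply]

theorem contDiffOn_gam1 {k : ℝ → ℝ} {F : C3 → C3} {U : Set C3} (hF : ContDiff ℝ ∞ F)
    (hk : ContDiffOn ℝ ∞ (fun x => k (nsq (F x))) U) : ContDiffOn ℝ ∞ (gam1 k F) U := by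
  unfold gam1
  have h1 : ContDiff ℝ ∞ (fderiv ℝ F) := hF.fderiv_right (by simp)
  have h2 : ContDiff ℝ ∞ fun x => HB (F x) := HB.contDiff.comp hF
  refine (hk.div_const 2).smul ?_
  exact (contDiff_const.clm_comp (h2.clm_comp h1)).contDiffOn

theorem contDiffOn_gam {k : ℝ → ℝ} {F : C3 → C3} {U : Set C3} (hF : ContDiff ℝ ∞ F)
    (hk : ContDiffOn ℝ ∞ (fun x => k (nsq (F x))) U) : ContDiffOn ℝ ∞ (gam k F) U := by
  unfold gam
  exact (ContinuousAlternatingMap.ofSubsingletonLIE (𝕜 := ℝ) (E := C3) (F := ℝ) (0 : Fin 1)).contDiff.comp_contDiffOn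
    (contDiffOn_gam1 hF hk)

/-- the 2-form `Im (k ⟨a', b'⟩ + k' ⟨a', F⟩ ⟨F, b'⟩)` -/
noncomputable def wf (k k' : ℝ) (F a b : C3) : ℝ :=
  ((k : ℂ) * hh a b + (k' : ℂ) * (hh a F * hh F b)).im

theorem differentiableAt_gam1 {k : ℝ → ℝ} {F : C3 → C3} {u : C3} (hF : ContDiff ℝ ∞ F)
    (hk : DifferentiableAt ℝ k (nsq (F u))) : DifferentiableAt ℝ (gam1 k F) u := by
  have h1 : ContDiff ℝ ∞ (fderiv ℝ F) := hF.fderiv_right (by simp)
  have hF1 : DifferentiableAt ℝ F u := hF.differentiable (by simp) u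
  have hF2 : DifferentiableAt ℝ (fderiv ℝ F) u := h1.differentiable (by simp) u
  have hkk : DifferentiableAt ℝ (fun x => k (nsq (F x))) u :=
    hk.comp u ((hasFDerivAt_nsq (F u)).differentiableAt.comp u hF1)
  have hB : DifferentiableAt ℝ (fun x => HB (F x)) u :=
    HB.differentiableAt.comp u hF1
  unfold gam1
  have h7 : (fun x => k (nsq (F x)) / 2) = fun x => (1 / 2 : ℝ) * k (nsq (F x)) := by
    funext x; ring
  have h8 : DifferentiableAt ℝ (fun x => k (nsq (F x)) / 2) u := by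
    rw [h7]; exact hkk.const_mul (1 / 2 : ℝ)
  refine h8.smul ?_
  exact (differentiableAt_const _).clm_comp (hB.clm_comp hF2)

theorem fderiv_gam1 {k : ℝ → ℝ} {F : C3 → C3} {u : C3} (hF : ContDiff ℝ ∞ F)
    (hk : DifferentiableAt ℝ k (nsq (F u))) (w w' : C3) :
    fderiv ℝ (gam1 k F) u w w' =
      deriv k (nsq (F u)) * ((hh (F u) (fderiv ℝ F u w)).re * (hh (F u) (fderiv ℝ F u w')).im) +
      k (nsq (F u)) / 2 * ((hh (fderiv ℝ F u w) (fderiv ℝ F u w')).im +
        (hh (F u) (fderiv ℝ (fderiv ℝ F) u w w')).im) := by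
  have h1 : ContDiff ℝ ∞ (fderiv ℝ F) := hF.fderiv_right (by simp)
  have hF1 : HasFDerivAt F (fderiv ℝ F u) u := (hF.differentiable (by simp) u).hasFDerivAt
  have hF2 : HasFDerivAt (fderiv ℝ F) (fderiv ℝ (fderiv ℝ F) u) u :=
    (h1.differentiable (by simp) u).hasFDerivAt
  have hn : HasFDerivAt (fun x => nsq (F x))
      (((2 : ℝ) • (Complex.reCLM ∘L HB (F u))) ∘L fderiv ℝ F u) u :=
    (hasFDerivAt_nsq (F u)).comp u hF1
  have hkk : HasFDerivAt (fun x => k (nsq (F x)))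
      (deriv k (nsq (F u)) • (((2 : ℝ) • (Complex.reCLM ∘L HB (F u))) ∘L fderiv ℝ F u)) u :=
    hk.hasDerivAt.comp_hasFDerivAt u hn
  have hB : HasFDerivAt (fun x => HB (F x)) (HB ∘L fderiv ℝ F u) u :=
    HB.hasFDerivAt.comp u hF1
  have hBw : HasFDerivAt (fun x => HB (F x) (fderiv ℝ F x w'))
      ((HB (F u)).comp ((fderiv ℝ (fderiv ℝ F) u).flip w') +
        (HB ∘L fderiv ℝ F u).flip (fderiv ℝ F u w')) u := by
    have := hB.clm_apply (hF2.clm_apply (hasFDerivAt_const w' u))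
    refine hasFDerivAt_of_eq this fun v => ?_
    simp
  have hIm := Complex.imCLM.hasFDerivAt.comp u hBw
  have h5 : (fun x => gam1 k F x w') = fun x => (k (nsq (F x)) / 2) *
      (Complex.imCLM ∘ fun x => HB (F x) (fderiv ℝ F x w')) x := by
    funext x
    rw [gam1_apply]
    simp [HB_apply]
  have h7 : (fun x => k (nsq (F x)) / 2) = fun x => (1 / 2 : ℝ) * k (nsq (F x)) := by
    funext x; ring
  have h8 := hkk.const_mul (1 / 2 : ℝ)
  rw [← h7] at h8
  have hG := h8.mul hIm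
  have hd : DifferentiableAt ℝ (gam1 k F) u := differentiableAt_gam1 hF hk
  have h6 : fderiv ℝ (gam1 k F) u w w' = fderiv ℝ (fun x => gam1 k F x w') u w := by
    have := (hd.hasFDerivAt.clm_apply (hasFDerivAt_const w' u)).fderiv
    rw [this]
    simp
  rw [h6, h5]
  refine (congrArg (fun L : C3 →L[ℝ] ℝ => L w) hG.fderiv).trans ?_
  change k (nsq (F u)) / 2 * (HB (F u) (fderiv ℝ (fderiv ℝ F) u w w') +
      HB (fderiv ℝ F u w) (fderiv ℝ F u w')).im +
    (HB (F u) (fderiv ℝ F u w')).im * ((1 / 2 : ℝ) * (deriv k (nsq (F u)) *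
      ((2 : ℝ) * (HB (F u) (fderiv ℝ F u w)).re))) = _
  simp only [HB_apply, Complex.add_im]
  ring

theorem extDeriv_gam {k : ℝ → ℝ} {F : C3 → C3} {u : C3} (hF : ContDiff ℝ ∞ F)
    (hk : DifferentiableAt ℝ k (nsq (F u))) (w w' : C3) :
    extDeriv (gam k F) u ![w, w'] =
      wf (k (nsq (F u))) (deriv k (nsq (F u))) (F u) (fderiv ℝ F u w) (fderiv ℝ F u w') := by
  have hd : DifferentiableAt ℝ (gam1 k F) u := differentiableAt_gam1 hF hk
  have hd2 : DifferentiableAt ℝ (gam k F) u :=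
    (ContinuousAlternatingMap.ofSubsingletonLIE (𝕜 := ℝ) (E := C3) (F := ℝ)
      (0 : Fin 1)).toContinuousLinearEquiv.differentiableAt.comp u hd
  have e1 : (fun x => gam k F x ((0 : Fin 2).removeNth ![w, w'])) =
      fun x => gam1 k F x w' := rfl
  have e2 : (fun x => gam k F x ((1 : Fin 2).removeNth ![w, w'])) =
      fun x => gam1 k F x w := rfl
  have h6 : ∀ v v' : C3, fderiv ℝ (fun x => gam1 k F x v') u v = fderiv ℝ (gam1 k F) u v v' := by
    intro v v'
    have := (hd.hasFDerivAt.clm_apply (hasFDerivAt_const v' u)).fderiv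
    rw [this]
    simp
  have hsymm : fderiv ℝ (fderiv ℝ F) u w w' = fderiv ℝ (fderiv ℝ F) u w' w := by
    have h1 : ContDiffAt ℝ 2 F u := (contDiff_infty.1 hF 2).contDiffAt
    exact (h1.isSymmSndFDerivAt (by simp)).eq w w'
  rw [extDeriv_apply hd2, Fin.sum_univ_two, e1, e2]
  change (-1 : ℤ) ^ (0 : ℕ) • fderiv ℝ (fun x => gam1 k F x w') u w +
    (-1 : ℤ) ^ (1 : ℕ) • fderiv ℝ (fun x => gam1 k F x w) u w' = _
  rw [pow_zero, pow_one, one_smul, neg_one_smul]
  rw [h6, h6, fderiv_gam1 hF hk, fderiv_gam1 hF hk, hsymm]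
  unfold wf
  rw [← hh_conj (fderiv ℝ F u w) (fderiv ℝ F u w'), ← hh_conj (F u) (fderiv ℝ F u w)]
  simp only [Complex.add_im, Complex.mul_im, Complex.ofReal_re, Complex.ofReal_im, Complex.conj_im,
    Complex.conj_re, Complex.mul_re, smul_eq_mul]
  ring

end Pool.Agent.Work.MP_11690a_gt
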