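import Pool.Agent.Work.MP_11690a_gt.Glue
import Pool.Agent.Work.MP_11690a_gt.Herm

/-!
The blow-up of the torus `ℂ³ / ℤ[i]³` at the origin.
-/

namespace Pool.Agent.Work.MP_11690a_gt

open scoped ContDiff Topology LinearAlgebra.Projectivization
open Set Filter

theorem nsq_sub_le (a b : C3) : nsq (a - b) ≤ 2 * nsq a + 2 * nsq b := by
  simp only [nsq, Finset.mul_sum, ← Finset.sum_add_distrib]
  refine Finset.sum_le_sum fun j _ => ?_
  simp only [Complex.normSq_apply, Pi.sub_apply, Complex.sub_re, Complex.sub_im]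
  nlinarith [sq_nonneg ((a j).re + (b j).re), sq_nonneg ((a j).im + (b j).im)]

theorem norm_le_one_of_nsq {a : C3} (h : nsq a ≤ 1) : ‖a‖ ≤ 1 := by
  rw [pi_norm_le_iff_of_nonneg zero_le_one]
  intro j
  have h1 := (normSq_le_nsq a j).trans h
  rw [Complex.normSq_eq_norm_sq] at h1
  nlinarith [norm_nonneg (a j)]

theorem isCompact_nsq {c : ℝ} (hc : c ≤ 1) : IsCompact {a : C3 | nsq a ≤ c} := by
  refine (isCompact_closedBall (0 : C3) 1).of_isClosed_subset
    (isClosed_le continuous_nsq continuous_const) fun a ha => ?_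
  rw [mem_closedBall_zero_iff]
  exact norm_le_one_of_nsq (le_trans ha hc)

theorem mem_Lat {x : C3} : x ∈ Lat ↔ ∀ j, ∃ m n : ℤ, x j = ⟨m, n⟩ := Iff.rfl

theorem isClosed_Lat : IsClosed (Lat : Set C3) := by
  have : (Lat : Set C3) = ⋂ j : Fin 3, {x : C3 | (x j).re ∈ range ((↑) : ℤ → ℝ)} ∩
      {x : C3 | (x j).im ∈ range ((↑) : ℤ → ℝ)} := by
    ext x
    simp only [SetLike.mem_coe, mem_Lat, mem_iInter, mem_inter_iff, mem_ofPred_eq, mem_range]
    refine forall_congr' fun j => ⟨?_, ?_⟩
    · rintro ⟨m, n, h⟩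
      rw [h]
      exact ⟨⟨m, rfl⟩, ⟨n, rfl⟩⟩
    · rintro ⟨⟨m, hm⟩, ⟨n, hn⟩⟩
      exact ⟨m, n, Complex.ext hm.symm hn.symm⟩
  rw [this]
  have hc : IsClosed (range ((↑) : ℤ → ℝ)) := Int.isClosedEmbedding_coe_real.isClosed_range
  refine isClosed_iInter fun j => ?_
  exact (hc.preimage (Complex.continuous_re.comp (continuous_apply j))).inter
    (hc.preimage (Complex.continuous_im.comp (continuous_apply j)))

theorem Lat_eq_zero {x : C3} (hx : x ∈ Lat) (h : nsq x < 1) : x = 0 := by
  funext j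
  obtain ⟨m, n, hj⟩ := hx j
  have h1 := (normSq_le_nsq x j).trans_lt h
  rw [hj, Complex.normSq_apply] at h1
  have h1' : (m : ℝ) * m + n * n < 1 := h1
  have h2 : m * m + n * n < 1 := by exact_mod_cast h1'
  have hm : m = 0 := by nlinarith [mul_self_nonneg m, mul_self_nonneg n]
  have hn : n = 0 := by nlinarith [mul_self_nonneg m, mul_self_nonneg n]
  rw [hj, hm, hn]
  simp [Complex.ext_iff]

instance : T2Space T6 := by
  have : IsClosed (Lat : Set C3) := isClosed_Lat
  infer_instance

theorem continuous_tor : Continuous tor := continuous_quotient_mk'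

theorem tor_eq {u v : C3} : tor u = tor v ↔ u - v ∈ Lat := by
  rw [tor, tor, QuotientAddGroup.eq, ← neg_mem_iff]
  constructor
  · intro h; convert h using 1; abel
  · intro h; convert h using 1; abel

theorem tor_zero : tor 0 = 0 := rfl

theorem tor_eq_zero {u : C3} : tor u = 0 ↔ u ∈ Lat := by
  rw [← tor_zero, tor_eq, sub_zero]

theorem tor_add {u l : C3} (h : l ∈ Lat) : tor (u + l) = tor u := by
  rw [tor_eq]
  simpa using h

theorem tor_surj (x : T6) : ∃ u, tor u = x := QuotientAddGroup.mk_surjective x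

/-- the closed ball around the origin of the torus -/
def KK : Set T6 := tor '' {a | nsq a ≤ 1 / 8}

theorem isClosed_KK : IsClosed KK := ((isCompact_nsq (by norm_num)).image continuous_tor).isClosed

theorem zero_mem_KK : (0 : T6) ∈ KK := ⟨0, by simp [nsq], tor_zero⟩

/-- the points of the blow-up of the torus -/
abbrev XX : Type := {x : T6 // x ≠ 0} ⊕ ℙ ℂ C3

/-- blow-down map in a chart -/
def bl (i : Fin 3) (u : C3) : C3 := u i • vec i u

theorem bl_same (i : Fin 3) (u : C3) : bl i u i = u i := by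
  simp [bl, vec_same]

theorem bl_ne {i : Fin 3} {u : C3} (h : u i ≠ 0) : bl i u ≠ 0 := fun h1 => by
  have := congrFun h1 i
  rw [bl_same] at this
  exact h this

theorem nsq_bl (i : Fin 3) (u : C3) : nsq (bl i u) = Complex.normSq (u i) * nsq (vec i u) :=
  nsq_smul _ _

/-- inverse of `bl` -/
noncomputable def blInv (i : Fin 3) (x : C3) : C3 := Function.update (fun k => x k / x i) i (x i)

/-- change of charts -/
noncomputable def blT (i j : Fin 3) (u : C3) : C3 :=
  Function.update (fun k => vec i u k / vec i u j) j (u i * vec i u j)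

theorem vec_update (i : Fin 3) (f : C3) (c : ℂ) : vec i (Function.update f i c) = vec i f := by
  simp [vec]

theorem bl_blInv {i : Fin 3} {x : C3} (h : x i ≠ 0) : bl i (blInv i x) = x := by
  unfold bl blInv
  rw [vec_update]
  funext k
  by_cases hk : k = i
  · subst hk
    simp [vec]
  · simp only [Pi.smul_apply, smul_eq_mul, Function.update_self, vec, Function.update_of_ne hk]
    field_simp

theorem blInv_bl {i : Fin 3} {u : C3} (h : u i ≠ 0) : blInv i (bl i u) = u := by
  unfold blInv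
  funext k
  by_cases hk : k = i
  · subst hk
    simp [bl_same]
  · rw [Function.update_of_ne hk, bl_same]
    simp only [bl, Pi.smul_apply, smul_eq_mul, vec, Function.update_of_ne hk]
    field_simp

theorem vec_blT {i j : Fin 3} {u : C3} (h : vec i u j ≠ 0) :
    vec j (blT i j u) = (vec i u j)⁻¹ • vec i u := by
  unfold blT
  rw [vec_update]
  funext k
  by_cases hk : k = j
  · subst hk
    rw [vec_same, Pi.smul_apply, smul_eq_mul, inv_mul_cancel₀ h]
  · simp only [Pi.smul_apply, smul_eq_mul]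
    rw [vec, Function.update_of_ne hk, div_eq_inv_mul]

theorem bl_blT {i j : Fin 3} {u : C3} (h : vec i u j ≠ 0) : bl j (blT i j u) = bl i u := by
  have h1 : blT i j u j = u i * vec i u j := by simp [blT]
  rw [bl, vec_blT h, h1, smul_smul, bl, mul_assoc, mul_inv_cancel₀ h, mul_one]

theorem contDiff_vec (i : Fin 3) : ContDiff ℝ ∞ (vec i) := by
  rw [contDiff_pi]
  intro k
  by_cases hk : k = i
  · subst hk
    simp only [vec, Function.update_self]
    exact contDiff_const
  · simp only [vec, Function.update_of_ne hk]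
    exact contDiff_apply ℝ ℂ k

theorem contDiff_bl (i : Fin 3) : ContDiff ℝ ∞ (bl i) :=
  (contDiff_apply ℝ ℂ i).smul (contDiff_vec i)

theorem continuous_bl (i : Fin 3) : Continuous (bl i) := (contDiff_bl i).continuous

theorem contDiffAt_blInv {i : Fin 3} {x : C3} (h : x i ≠ 0) : ContDiffAt ℝ ∞ (blInv i) x := by
  rw [contDiffAt_pi]
  intro k
  have h1 : ∀ k, ContDiffAt ℝ ∞ (fun x : C3 => x k) x := fun k => (contDiff_apply ℝ ℂ k).contDiffAt
  by_cases hk : k = i
  · subst hk
    simp only [blInv, Function.update_self]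
    exact h1 _
  · simp only [blInv, Function.update_of_ne hk]
    simp only [div_eq_mul_inv]
    exact (h1 k).mul ((h1 i).inv h)

theorem contDiffAt_blT {i j : Fin 3} {u : C3} (h : vec i u j ≠ 0) :
    ContDiffAt ℝ ∞ (blT i j) u := by
  rw [contDiffAt_pi]
  intro k
  have h1 : ∀ k, ContDiffAt ℝ ∞ (fun x : C3 => vec i x k) u := fun k =>
    ((contDiff_pi.1 (contDiff_vec i)) k).contDiffAt
  by_cases hk : k = j
  · subst hk
    simp only [blT, Function.update_self]
    exact (contDiff_apply ℝ ℂ i).contDiffAt.mul (h1 _)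
  · simp only [blT, Function.update_of_ne hk]
    simp only [div_eq_mul_inv]
    exact (h1 k).mul ((h1 j).inv h)

open Classical in
/-- parametrisation of the complement of the exceptional divisor by `ℂ³` minus the lattice -/
noncomputable def tM (u : C3) : XX :=
  if h : tor u ≠ 0 then Sum.inl ⟨tor u, h⟩ else Sum.inr (Projectivization.mk ℂ (vec 0 0) (vec_ne 0 0))

theorem tM_of {u : C3} (h : tor u ≠ 0) : tM u = Sum.inl ⟨tor u, h⟩ := by
  unfold tM
  rw [dif_pos h]

theorem tM_congr {u v : C3} (h : tor u = tor v) : tM u = tM v := by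
  by_cases hu : tor u ≠ 0
  · rw [tM_of hu, tM_of (h ▸ hu)]
    simp only [h]
  · have hv : ¬ tor v ≠ 0 := h ▸ hu
    unfold tM
    rw [dif_neg hu, dif_neg hv]

theorem tor_of_tM {u v : C3} (h : tor u ≠ 0) (h' : tor v ≠ 0) (e : tM u = tM v) :
    tor u = tor v := by
  rw [tM_of h, tM_of h'] at e
  exact congrArg Subtype.val (Sum.inl_injective e)

/-- a line -/
noncomputable def lin (v : C3) (h : v ≠ 0) : ℙ ℂ C3 := Projectivization.mk ℂ v h

theorem lin_eq {v w : C3} {hv : v ≠ 0} {hw : w ≠ 0} : lin v hv = lin w hw ↔ ∃ a : ℂ, a • w = v :=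
  Projectivization.mk_eq_mk_iff' ℂ v w hv hw

open Classical in
/-- parametrisation near the exceptional divisor -/
noncomputable def cB (i : Fin 3) (u : C3) : XX :=
  if u i = 0 then Sum.inr (lin (vec i u) (vec_ne i u)) else tM (bl i u)

theorem cB_zero {i : Fin 3} {u : C3} (h : u i = 0) : cB i u = Sum.inr (lin (vec i u) (vec_ne i u)) := by
  unfold cB
  rw [if_pos h]

theorem cB_ne {i : Fin 3} {u : C3} (h : u i ≠ 0) : cB i u = tM (bl i u) := by
  unfold cB
  rw [if_neg h]

/-- domain of `cB` -/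
def DB (i : Fin 3) : Set C3 := {u | nsq (bl i u) < 1 / 4}

theorem isOpen_DB (i : Fin 3) : IsOpen (DB i) :=
  isOpen_lt (continuous_nsq.comp (continuous_bl i)) continuous_const

theorem tor_bl_ne {i : Fin 3} {u : C3} (hu : u ∈ DB i) (h : u i ≠ 0) : tor (bl i u) ≠ 0 := by
  intro h1
  rw [tor_eq_zero] at h1
  exact bl_ne h (Lat_eq_zero h1 (lt_trans hu (by norm_num)))

/-- domain of `tM` for the centre `p` -/
def DT (p : C3) : Set C3 := {u | nsq (u - p) < 1 / 16 ∧ tor u ∉ KK}

theorem isOpen_DT (p : C3) : IsOpen (DT p) :=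
  (isOpen_lt (continuous_nsq.comp (continuous_id.sub continuous_const)) continuous_const).inter
    (isClosed_KK.isOpen_compl.preimage continuous_tor)

theorem tor_DT_ne {p u : C3} (hu : u ∈ DT p) : tor u ≠ 0 := fun h => hu.2 (h ▸ zero_mem_KK)

/-- the key fact on two points near the exceptional divisor -/
theorem cB_eq {i j : Fin 3} {u v : C3} (hu : u ∈ DB i) (hv : v ∈ DB j) (h : cB i u = cB j v) :
    bl i u = bl j v ∧ ∃ a : ℂ, a ≠ 0 ∧ vec i u = a • vec j v := by
  by_cases hi : u i = 0
  · by_cases hj : v j = 0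
    · rw [cB_zero hi, cB_zero hj] at h
      obtain ⟨a, ha⟩ := lin_eq.1 (Sum.inr_injective h)
      refine ⟨by rw [bl, bl, hi, hj, zero_smul, zero_smul], a, ?_, ha.symm⟩
      rintro rfl
      rw [zero_smul] at ha
      exact vec_ne i u ha.symm
    · rw [cB_zero hi, cB_ne hj, tM_of (tor_bl_ne hv hj)] at h
      exact absurd h (by simp)
  · by_cases hj : v j = 0
    · rw [cB_zero hj, cB_ne hi, tM_of (tor_bl_ne hu hi)] at h
      exact absurd h (by simp)
    · rw [cB_ne hi, cB_ne hj] at h
      have h1 := tor_of_tM (tor_bl_ne hu hi) (tor_bl_ne hv hj) h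
      rw [tor_eq] at h1
      have hu' : nsq (bl i u) < 1 / 4 := hu
      have hv' : nsq (bl j v) < 1 / 4 := hv
      have h2 := Lat_eq_zero h1 (lt_of_le_of_lt (nsq_sub_le _ _) (by linarith))
      have h3 : bl i u = bl j v := sub_eq_zero.1 h2
      refine ⟨h3, (u i)⁻¹ * v j, mul_ne_zero (inv_ne_zero hi) hj, ?_⟩
      rw [mul_smul]
      change _ = (u i)⁻¹ • bl j v
      rw [← h3, bl, smul_smul, inv_mul_cancel₀ hi, one_smul]

theorem injOn_cB (i : Fin 3) : InjOn (cB i) (DB i) := by
  intro u hu v hv h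
  obtain ⟨h1, a, ha, h2⟩ := cB_eq hu hv h
  have h3 : a = 1 := by
    have := congrFun h2 i
    simp only [Pi.smul_apply, vec_same, smul_eq_mul, mul_one] at this
    exact this.symm
  rw [h3, one_smul] at h2
  funext k
  by_cases hk : k = i
  · subst hk
    rw [← bl_same k u, h1, bl_same]
  · have := congrFun h2 k
    simpa [vec, Function.update_of_ne hk] using this

theorem injOn_tM (p : C3) : InjOn tM (DT p) := by
  intro u hu v hv h
  have h1 := tor_of_tM (tor_DT_ne hu) (tor_DT_ne hv) h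
  rw [tor_eq] at h1
  have h2 : nsq (u - v) < 1 := by
    have : u - v = (u - p) - (v - p) := by abel
    rw [this]
    have hu' := hu.1
    have hv' := hv.1
    exact lt_of_le_of_lt (nsq_sub_le _ _) (by linarith)
  exact sub_eq_zero.1 (Lat_eq_zero h1 h2)

theorem cB_blT {i j : Fin 3} {u : C3} (h : vec i u j ≠ 0) : cB j (blT i j u) = cB i u := by
  have h1 : blT i j u j = u i * vec i u j := by simp [blT]
  by_cases hi : u i = 0
  · have h2 : blT i j u j = 0 := by rw [h1, hi, zero_mul]
    rw [cB_zero hi, cB_zero h2, Sum.inr.injEq, lin_eq]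
    exact ⟨(vec i u j)⁻¹, (vec_blT h).symm⟩
  · have h2 : blT i j u j ≠ 0 := by rw [h1]; exact mul_ne_zero hi h
    rw [cB_ne hi, cB_ne h2, bl_blT h]

/-- change between two charts near the exceptional divisor -/
theorem compat_BB {i j : Fin 3} {u v : C3} (hu : u ∈ DB i) (hv : v ∈ DB j) (h : cB i u = cB j v) :
    vec i u j ≠ 0 ∧ blT i j u = v := by
  obtain ⟨h1, a, ha, h2⟩ := cB_eq hu hv h
  have h3 : vec i u j ≠ 0 := by
    rw [h2]
    simp only [Pi.smul_apply, vec_same, smul_eq_mul, mul_one]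
    exact ha
  refine ⟨h3, injOn_cB j ?_ hv ((cB_blT h3).trans h)⟩
  change nsq (bl j (blT i j u)) < 1 / 4
  rw [bl_blT h3]
  exact hu

/-- change from a chart near the exceptional divisor to a chart of the torus -/
theorem compat_BT {i : Fin 3} {p u v : C3} (hu : u ∈ DB i) (hv : v ∈ DT p) (h : cB i u = tM v) :
    u i ≠ 0 ∧ v - bl i u ∈ Lat := by
  have hi : u i ≠ 0 := by
    intro hi
    rw [cB_zero hi, tM_of (tor_DT_ne hv)] at h
    exact absurd h (by simp)
  rw [cB_ne hi] at h
  exact ⟨hi, tor_eq.1 (tor_of_tM (tor_bl_ne hu hi) (tor_DT_ne hv) h).symm⟩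

theorem cB_eventually {i : Fin 3} {u l : C3} (hi : u i ≠ 0) (hl : l ∈ Lat) :
    ∀ᶠ w in 𝓝 u, w i ≠ 0 ∧ tM (bl i w + l) = cB i w := by
  have h1 : ∀ᶠ w : C3 in 𝓝 u, w i ≠ 0 := (continuous_apply i).continuousAt.eventually_ne hi
  filter_upwards [h1] with w hw
  exact ⟨hw, by rw [cB_ne hw]; exact tM_congr (tor_add hl)⟩

end Pool.Agent.Work.MP_11690a_gt
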