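import Pool.Agent.Work.MP_11690a_gt.GlueForm
import Pool.Agent.Work.MP_11690a_gt.Space
import Pool.Agent.Work.MP_11690a_gt.Cut

/-!
The forms in the charts.
-/

namespace Pool.Agent.Work.MP_11690a_gt

open scoped ContDiff Topology
open Set Filter

/-- the Fubini-Study form up to a factor -/
noncomputable def fs (V a b : C3) : ℂ := hh a b / nsq V - hh a V * hh V b / (nsq V : ℂ) ^ 2

theorem fs_smul {V a b : C3} (hV : V ≠ 0) {g : ℂ} (hg : g ≠ 0) (α β : ℂ) :
    fs (g • V) (α • V + g • a) (β • V + g • b) = fs V a b := by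
  unfold fs
  have h1 : (nsq V : ℂ) ≠ 0 := by exact_mod_cast (nsq_pos hV).ne'
  have h2 : ((nsq (g • V) : ℝ) : ℂ) = (starRingEnd ℂ) g * g * nsq V := by
    rw [nsq_smul, Complex.ofReal_mul, Complex.normSq_eq_conj_mul_self]
  have h3 : (starRingEnd ℂ) g ≠ 0 := (map_ne_zero _).2 hg
  rw [h2]
  simp only [hh_add_left, hh_add_right, hh_smul_left, hh_smul_right, hh_self]
  field_simp
  ring

theorem wf_eq_fs {k k' e : ℝ} {F a b : C3} (hF : F ≠ 0) (h1 : k = 1 - e * (1 / nsq F))
    (h2 : k' = e * (1 / nsq F ^ 2)) : wf k k' F a b = (hh a b).im - e * (fs F a b).im := by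
  unfold wf fs
  have h0 : (nsq F : ℂ) ≠ 0 := by exact_mod_cast (nsq_pos hF).ne'
  have : (k : ℂ) * hh a b + (k' : ℂ) * (hh a F * hh F b) =
      hh a b - (e : ℂ) * (hh a b / nsq F - hh a F * hh F b / (nsq F : ℂ) ^ 2) := by
    rw [h1, h2]
    push_cast
    field_simp
    ring
  rw [this, Complex.sub_im, Complex.im_ofReal_mul]

theorem wf_inv {F a b : C3} (hF : F ≠ 0) :
    wf (nsq F)⁻¹ (-(nsq F ^ 2)⁻¹) F a b = (fs F a b).im := by
  unfold wf fs
  have h0 : (nsq F : ℂ) ≠ 0 := by exact_mod_cast (nsq_pos hF).ne'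
  congr 1
  push_cast
  field_simp
  ring

/-- projection killing the entry `i` -/
noncomputable def P0 (i : Fin 3) : C3 →L[ℝ] C3 :=
  ContinuousLinearMap.pi fun k => if k = i then 0 else ContinuousLinearMap.proj (R := ℝ) k

theorem P0_apply (i : Fin 3) (a : C3) : P0 i a = Function.update a i 0 := by
  funext k
  unfold P0
  by_cases hk : k = i
  · subst hk; simp
  · simp [hk]

theorem hasFDerivAt_vec (i : Fin 3) (u : C3) : HasFDerivAt (vec i) (P0 i) u := by
  have : vec i = fun u => P0 i u + Pi.single i 1 := by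
    funext u k
    rw [P0_apply]
    by_cases hk : k = i
    · subst hk; simp [vec]
    · simp [vec, hk]
  rw [this]
  exact (P0 i).hasFDerivAt.add_const _

theorem fderiv_vec (i : Fin 3) (u a : C3) : fderiv ℝ (vec i) u a = Function.update a i 0 := by
  rw [(hasFDerivAt_vec i u).fderiv, P0_apply]

theorem fderiv_bl (i : Fin 3) (u a : C3) :
    fderiv ℝ (bl i) u a = a i • vec i u + u i • Function.update a i 0 := by
  have h1 : HasFDerivAt (fun u : C3 => u i) (ContinuousLinearMap.proj (R := ℝ) (φ := fun _ => ℂ) i) u :=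
    (ContinuousLinearMap.proj (R := ℝ) (φ := fun _ : Fin 3 => ℂ) i).hasFDerivAt
  have h2 : HasFDerivAt (bl i) _ u := h1.smul (hasFDerivAt_vec i u)
  rw [h2.fderiv]
  simp only [add_apply, smul_apply, ContinuousLinearMap.smulRight_apply,
    ContinuousLinearMap.proj_apply, P0_apply]
  rw [add_comm]

/-- primitive of the symplectic form near the exceptional divisor -/
noncomputable def gB (i : Fin 3) : C3 → C3 [⋀^Fin 1]→L[ℝ] ℝ :=
  gam kf (bl i) + ep • gam (fun t => t⁻¹) (vec i)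

/-- primitive of the standard form -/
noncomputable def gT : C3 → C3 [⋀^Fin 1]→L[ℝ] ℝ := gam (fun _ => 1) id

theorem contDiff_g1 (i : Fin 3) : ContDiff ℝ ∞ (gam kf (bl i)) := by
  rw [← contDiffOn_univ]
  exact contDiffOn_gam (contDiff_bl i)
    (contDiff_kf.comp (contDiff_nsq.comp (contDiff_bl i))).contDiffOn

theorem contDiff_g2 (i : Fin 3) : ContDiff ℝ ∞ (gam (fun t => t⁻¹) (vec i)) := by
  rw [← contDiffOn_univ]
  exact contDiffOn_gam (contDiff_vec i)
    ((contDiff_nsq.comp (contDiff_vec i)).inv fun u => (nsq_pos (vec_ne i u)).ne').contDiffOn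

theorem contDiff_gB (i : Fin 3) : ContDiff ℝ ∞ (gB i) :=
  (contDiff_g1 i).add ((contDiff_g2 i).const_smul ep)

theorem contDiff_gT : ContDiff ℝ ∞ gT := by
  rw [← contDiffOn_univ]
  exact contDiffOn_gam contDiff_id contDiff_const.contDiffOn

theorem contDiff_extDeriv {k : ℕ} {w : C3 → C3 [⋀^Fin k]→L[ℝ] ℝ} (hw : ContDiff ℝ ∞ w) :
    ContDiff ℝ ∞ (extDeriv w) := by
  have h1 : ContDiff ℝ ∞ (fderiv ℝ w) := hw.fderiv_right (by simp)
  exact (ContinuousAlternatingMap.alternatizeUncurryFinCLM ℝ C3 ℝ (n := k)).contDiff.comp h1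

theorem extDeriv_gT (u a b : C3) : extDeriv gT u ![a, b] = (hh a b).im := by
  unfold gT
  rw [extDeriv_gam contDiff_id (differentiableAt_const _)]
  simp [wf]

theorem extDeriv_gB (i : Fin 3) (u a b : C3) : extDeriv (gB i) u ![a, b] =
    wf (kf (nsq (bl i u))) (deriv kf (nsq (bl i u))) (bl i u) (fderiv ℝ (bl i) u a)
      (fderiv ℝ (bl i) u b) +
    ep * (fs (vec i u) (fderiv ℝ (vec i) u a) (fderiv ℝ (vec i) u b)).im := by
  unfold gB
  have h0 := (nsq_pos (vec_ne i u)).ne'
  rw [extDeriv_add ((contDiff_g1 i).differentiable (by simp) u)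
    (((contDiff_g2 i).differentiable (by simp) u).const_smul ep), extDeriv_smul]
  change extDeriv (gam kf (bl i)) u ![a, b] + ep * extDeriv (gam (fun t => t⁻¹) (vec i)) u ![a, b] = _
  rw [extDeriv_gam (contDiff_bl i) (contDiff_kf.differentiable (by simp) _),
    extDeriv_gam (contDiff_vec i) (differentiableAt_inv h0), (hasDerivAt_inv h0).deriv,
    wf_inv (vec_ne i u)]

/-- away from the exceptional divisor the form is the standard one -/
theorem extDeriv_gB_far {i : Fin 3} {u : C3} (hu : 1 / 8 < nsq (bl i u)) (a b : C3) :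
    extDeriv (gB i) u ![a, b] = (hh (fderiv ℝ (bl i) u a) (fderiv ℝ (bl i) u b)).im := by
  have hi : u i ≠ 0 := by
    intro h
    rw [nsq_bl, h, map_zero, zero_mul] at hu
    norm_num at hu
  have h1 : fs (bl i u) (fderiv ℝ (bl i) u a) (fderiv ℝ (bl i) u b) =
      fs (vec i u) (fderiv ℝ (vec i) u a) (fderiv ℝ (vec i) u b) := by
    rw [fderiv_bl, fderiv_bl, fderiv_vec, fderiv_vec, bl, fs_smul (vec_ne i u) hi]
  rw [extDeriv_gB, wf_eq_fs (bl_ne hi) (kf_eq hu) (deriv_kf_eq hu), h1]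
  ring

theorem hh_I (a b : C3) : hh a (Complex.I • b) = Complex.I * hh a b := hh_smul_right _ _ _

theorem form2_ext {f g : C3 [⋀^Fin 2]→L[ℝ] ℝ} (h : ∀ a b : C3, f ![a, b] = g ![a, b]) : f = g := by
  ext v
  have : v = ![v 0, v 1] := by
    funext i
    fin_cases i <;> rfl
  rw [this]
  exact h _ _

theorem comp2 (f : C3 [⋀^Fin 2]→L[ℝ] ℝ) (L : C3 →L[ℝ] C3) (a b : C3) :
    f.compContinuousLinearMap L ![a, b] = f ![L a, L b] := by
  rw [ContinuousAlternatingMap.compContinuousLinearMap_apply]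
  congr 1
  funext i
  fin_cases i <;> rfl

end Pool.Agent.Work.MP_11690a_gt
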