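import Mathlib

/-!
Manifolds glued from parametrisations.
-/

namespace Pool.Agent.Work.MP_11690a_gt

open scoped Manifold ContDiff Topology
open Set Filter

variable (E : Type) [NormedAddCommGroup E] [NormedSpace ℝ E]

/-- A set `X` covered by injective images of open sets of `E`, with smooth changes of
parameters. -/
structure PS (X ι : Type) where
  D : ι → Set E
  hD : ∀ i, IsOpen (D i)
  c : ι → E → X
  inj : ∀ i, Set.InjOn (c i) (D i)
  cov : ∀ x, ∃ i, ∃ u ∈ D i, c i u = x
  compat : ∀ i j u v, u ∈ D i → v ∈ D j → c i u = c j v →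
    ∃ h : E → E, ContDiffAt ℝ ∞ h u ∧ h u = v ∧ ∀ᶠ w in 𝓝 u, c j (h w) = c i w

variable {E}

namespace PS

variable {X ι : Type} (P : PS E X ι)

/-- the glued space -/
def Sp (_ : PS E X ι) : Type := X

/-- the parametrisations -/
def par (i : ι) : E → P.Sp := P.c i

instance : TopologicalSpace P.Sp where
  IsOpen s := ∀ i, IsOpen (P.D i ∩ P.par i ⁻¹' s)
  isOpen_univ := fun i => by simpa using P.hD i
  isOpen_inter := fun s t hs ht i => by
    have := (hs i).inter (ht i)
    convert this using 1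
    ext u
    simp only [mem_inter_iff, mem_preimage]
    tauto
  isOpen_sUnion := fun S hS i => by
    have : P.D i ∩ P.par i ⁻¹' ⋃₀ S = ⋃ s ∈ S, P.D i ∩ P.par i ⁻¹' s := by
      ext u
      simp only [mem_inter_iff, mem_preimage, mem_sUnion, mem_iUnion, exists_prop]
      constructor
      · rintro ⟨h1, s, hs, h2⟩
        exact ⟨s, hs, h1, h2⟩
      · rintro ⟨s, hs, h1, h2⟩
        exact ⟨h1, s, hs, h2⟩
    rw [this]
    exact isOpen_biUnion fun s hs => hS s hs i

theorem isOpen_iff {s : Set P.Sp} : IsOpen s ↔ ∀ i, IsOpen (P.D i ∩ P.par i ⁻¹' s) := Iff.rfl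

theorem par_continuousOn (i : ι) : ContinuousOn (P.par i) (P.D i) := by
  rw [continuousOn_open_iff (P.hD i)]
  intro s hs
  exact hs i

theorem isOpen_image (i : ι) {V : Set E} (hV : IsOpen V) (hVD : V ⊆ P.D i) :
    IsOpen (P.par i '' V) := by
  intro j
  rw [isOpen_iff_mem_nhds]
  rintro u ⟨hu, v, hv, huv⟩
  obtain ⟨h, h1, h2, h3⟩ := P.compat j i u v hu (hVD hv) huv.symm
  have h4 : ∀ᶠ w in 𝓝 u, h w ∈ V := h1.continuousAt.eventually_mem (by
    rw [h2]; exact hV.mem_nhds hv)
  filter_upwards [h3, h4, (P.hD j).mem_nhds hu] with w hw1 hw2 hw3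
  exact ⟨hw3, h w, hw2, hw1⟩

/-- inverse of the parametrisation -/
noncomputable def inv [Nonempty E] (i : ι) : P.Sp → E := Function.invFunOn (P.par i) (P.D i)

theorem inv_mem {i : ι} {x : P.Sp} (hx : x ∈ P.par i '' P.D i) : P.inv i x ∈ P.D i :=
  Function.invFunOn_mem hx

theorem par_inv {i : ι} {x : P.Sp} (hx : x ∈ P.par i '' P.D i) : P.par i (P.inv i x) = x :=
  Function.invFunOn_eq hx

theorem inv_par {i : ι} {u : E} (hu : u ∈ P.D i) : P.inv i (P.par i u) = u :=
  P.inj i (P.inv_mem (mem_image_of_mem _ hu)) hu (P.par_inv (mem_image_of_mem _ hu))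

/-- the charts -/
noncomputable def chart (i : ι) : OpenPartialHomeomorph P.Sp E where
  toFun := P.inv i
  invFun := P.par i
  source := P.par i '' P.D i
  target := P.D i
  map_source' := fun _ hx => P.inv_mem hx
  map_target' := fun _ hu => mem_image_of_mem _ hu
  left_inv' := fun _ hx => P.par_inv hx
  right_inv' := fun _ hu => P.inv_par hu
  open_source := P.isOpen_image i (P.hD i) Subset.rfl
  open_target := P.hD i
  continuousOn_toFun := by
    rw [continuousOn_open_iff (P.isOpen_image i (P.hD i) Subset.rfl)]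
    intro V hV
    have : P.par i '' P.D i ∩ P.inv i ⁻¹' V = P.par i '' (P.D i ∩ V) := by
      ext x
      constructor
      · rintro ⟨hx, hxV⟩
        exact ⟨P.inv i x, ⟨P.inv_mem hx, hxV⟩, P.par_inv hx⟩
      · rintro ⟨u, ⟨hu, huV⟩, rfl⟩
        refine ⟨mem_image_of_mem _ hu, ?_⟩
        rw [mem_preimage, P.inv_par hu]
        exact huV
    rw [this]
    exact P.isOpen_image i ((P.hD i).inter hV) inter_subset_left
  continuousOn_invFun := P.par_continuousOn i

theorem chart_symm (i : ι) : ((P.chart i).symm : E → P.Sp) = P.par i := rfl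

theorem chart_target (i : ι) : (P.chart i).target = P.D i := rfl

theorem chart_source (i : ι) : (P.chart i).source = P.par i '' P.D i := rfl

/-- index of the preferred chart -/
noncomputable def idx (x : P.Sp) : ι := (P.cov x).choose

theorem idx_mem (x : P.Sp) : x ∈ P.par (P.idx x) '' P.D (P.idx x) := by
  obtain ⟨u, hu, h⟩ := (P.cov x).choose_spec
  exact ⟨u, hu, h⟩

noncomputable instance : ChartedSpace E P.Sp where
  atlas := range P.chart
  chartAt x := P.chart (P.idx x)
  mem_chart_source x := P.idx_mem x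
  chart_mem_atlas x := ⟨P.idx x, rfl⟩

theorem chartAt_eq (x : P.Sp) : chartAt E x = P.chart (P.idx x) := rfl

/-- near `u`, the change of parameters agrees with any local solution -/
theorem inv_par_eventually {i j : ι} {u : E} (h : E → E) (hh : ContinuousAt h u)
    (hv : h u ∈ P.D j) (he : ∀ᶠ w in 𝓝 u, P.c j (h w) = P.c i w) :
    (fun w => P.inv j (P.par i w)) =ᶠ[𝓝 u] h := by
  have h4 : ∀ᶠ w in 𝓝 u, h w ∈ P.D j := hh.eventually_mem ((P.hD j).mem_nhds hv)
  filter_upwards [he, h4] with w hw1 hw2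
  have : P.par i w = P.par j (h w) := hw1.symm
  rw [this, P.inv_par hw2]

theorem contDiffAt_change {i j : ι} {u : E} (hu : u ∈ P.D i) (hx : P.par i u ∈ P.par j '' P.D j) :
    ContDiffAt ℝ ∞ (fun w => P.inv j (P.par i w)) u := by
  obtain ⟨v, hv, hvu⟩ := hx
  obtain ⟨h, h1, h2, h3⟩ := P.compat i j u v hu hv hvu.symm
  exact h1.congr_of_eventuallyEq
    (P.inv_par_eventually h h1.continuousAt (by rw [h2]; exact hv) h3)

instance : IsManifold 𝓘(ℝ, E) ∞ P.Sp := by
  apply isManifold_of_contDiffOn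
  rintro e e' ⟨i, rfl⟩ ⟨j, rfl⟩
  simp only [modelWithCornersSelf_coe, modelWithCornersSelf_coe_symm, Function.comp_id,
    Function.id_comp, preimage_id, range_id, inter_univ]
  rintro u hu
  have hu1 : u ∈ P.D i := hu.1
  have hu2 : P.par i u ∈ P.par j '' P.D j := hu.2
  exact (P.contDiffAt_change hu1 hu2).contDiffWithinAt

end PS

end Pool.Agent.Work.MP_11690a_gt
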