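import Pool.Agent.Work.MP_11690a_gt.Glue
import Pool.Agent.Work.MP_11690a_gt.FormDefs

/-!
Forms and smooth maps on a manifold glued from parametrisations.
-/

namespace Pool.Agent.Work.MP_11690a_gt

open scoped Manifold ContDiff Topology
open Set Filter

namespace PS

variable {E : Type} [NormedAddCommGroup E] [NormedSpace ℝ E] {X ι : Type} (P : PS E X ι)

theorem par_contMDiffAt {j : ι} {y : E} (hy : y ∈ P.D j) :
    ContMDiffAt 𝓘(ℝ, E) 𝓘(ℝ, E) ∞ (P.par j) y := by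
  have h1 : P.chart j ∈ IsManifold.maximalAtlas 𝓘(ℝ, E) ∞ P.Sp :=
    IsManifold.subset_maximalAtlas ⟨j, rfl⟩
  exact (contMDiffOn_symm_of_mem_maximalAtlas h1).contMDiffAt ((P.hD j).mem_nhds hy)

theorem mfderiv_par {j : ι} {y : E} (hy : y ∈ P.D j) :
    (mfderiv 𝓘(ℝ, E) 𝓘(ℝ, E) (P.par j) y : E →L[ℝ] E) =
      fderiv ℝ (fun w => P.inv (P.idx (P.par j y)) (P.par j w)) y := by
  have h1 : MDifferentiableAt 𝓘(ℝ, E) 𝓘(ℝ, E) (P.par j) y :=
    (P.par_contMDiffAt hy).mdifferentiableAt (by simp)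
  unfold mfderiv
  rw [if_pos h1]
  simp only [writtenInExtChartAt, mfld_simps, fderivWithin_univ]
  rfl

/-- the form with given local expressions -/
noncomputable def form {k : ℕ} (om : ι → E → E [⋀^Fin k]→L[ℝ] ℝ) :
    ∀ x : P.Sp, TangentSpace 𝓘(ℝ, E) x [⋀^Fin k]→L[ℝ] ℝ :=
  fun x => om (P.idx x) (P.inv (P.idx x) x)

/-- compatibility of local forms -/
def CompatF {k : ℕ} (om : ι → E → E [⋀^Fin k]→L[ℝ] ℝ) : Prop :=
  ∀ i j u v, u ∈ P.D i → v ∈ P.D j → P.c i u = P.c j v →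
    ∃ h : E → E, ContDiffAt ℝ ∞ h u ∧ h u = v ∧ (∀ᶠ w in 𝓝 u, P.c j (h w) = P.c i w) ∧
      om i u = (om j v).compContinuousLinearMap (fderiv ℝ h u)

theorem localForm_form {k : ℕ} {om : ι → E → E [⋀^Fin k]→L[ℝ] ℝ} (hom : P.CompatF om) {j : ι}
    {y : E} (hy : y ∈ P.D j) : localForm (P.form om) (P.chart j) y = om j y := by
  unfold localForm
  have hx := P.idx_mem (P.par j y)
  obtain ⟨h, h1, h2, h3, h4⟩ := hom j (P.idx (P.par j y)) y (P.inv _ (P.par j y)) hy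
    (P.inv_mem hx) (P.par_inv hx).symm
  have h5 := P.inv_par_eventually h h1.continuousAt (by rw [h2]; exact P.inv_mem hx) h3
  rw [h4, ← h5.fderiv_eq, ← P.mfderiv_par hy]
  rfl

theorem smoothForm_form {k : ℕ} {om : ι → E → E [⋀^Fin k]→L[ℝ] ℝ} (hom : P.CompatF om)
    (hs : ∀ i, ContDiffOn ℝ ∞ (om i) (P.D i)) : SmoothForm (P.form om) := by
  rintro e ⟨j, rfl⟩
  exact (hs j).congr fun y hy => P.localForm_form hom hy

theorem closedForm_form {k : ℕ} {om : ι → E → E [⋀^Fin k]→L[ℝ] ℝ} (hom : P.CompatF om)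
    (hc : ∀ i, ∀ y ∈ P.D i, extDeriv (om i) y = 0) : ClosedForm (P.form om) := by
  rintro e ⟨j, rfl⟩ y hy
  have h1 : localForm (P.form om) (P.chart j) =ᶠ[𝓝 y] om j := by
    filter_upwards [(P.hD j).mem_nhds hy] with z hz
    exact P.localForm_form hom hz
  rw [h1.extDeriv_eq]
  exact hc j y hy

theorem nondeg_form {om : ι → E → E [⋀^Fin 2]→L[ℝ] ℝ}
    (hn : ∀ i, ∀ y ∈ P.D i, ∀ v, (∀ w, om i y ![v, w] = 0) → v = 0) (x : P.Sp)
    (v : TangentSpace 𝓘(ℝ, E) x) (h : ∀ w, P.form om x ![v, w] = 0) : v = 0 :=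
  hn (P.idx x) (P.inv (P.idx x) x) (P.inv_mem (P.idx_mem x)) v h

theorem isSymplectic_form {om : ι → E → E [⋀^Fin 2]→L[ℝ] ℝ} (hom : P.CompatF om)
    (hs : ∀ i, ContDiffOn ℝ ∞ (om i) (P.D i)) (hc : ∀ i, ∀ y ∈ P.D i, extDeriv (om i) y = 0)
    (hn : ∀ i, ∀ y ∈ P.D i, ∀ v, (∀ w, om i y ![v, w] = 0) → v = 0) :
    IsSymplectic (P.form om) :=
  ⟨P.smoothForm_form hom hs, P.closedForm_form hom hc, P.nondeg_form hn⟩

/-- the differential of a parametrisation is bijective -/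
theorem mfderiv_par_bijective {j : ι} {y : E} (hy : y ∈ P.D j) :
    Function.Bijective (mfderiv 𝓘(ℝ, E) 𝓘(ℝ, E) (P.par j) y) := by
  have h1 : P.chart j ∈ atlas E P.Sp := ⟨j, rfl⟩
  have : IsManifold 𝓘(ℝ, E) 1 P.Sp := IsManifold.of_le (n := ∞) (by simp)
  have h2 := mdifferentiable_of_mem_atlas (I := 𝓘(ℝ, E)) h1
  exact h2.symm.mfderiv_bijective (x := y) hy

/-- a map which is a parametrisation after a smooth change with a smooth left inverse -/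
theorem good_map [FiniteDimensional ℝ E] {F : E → P.Sp} {u : E} {j : ι} (h h' : E → E)
    (hh : ContDiffAt ℝ ∞ h u) (hh' : DifferentiableAt ℝ h' (h u)) (hu : h u ∈ P.D j)
    (hF : ∀ᶠ w in 𝓝 u, F w = P.par j (h w)) (hinv : ∀ᶠ w in 𝓝 u, h' (h w) = w) :
    ContMDiffAt 𝓘(ℝ, E) 𝓘(ℝ, E) ∞ F u ∧
      Function.Bijective (mfderiv 𝓘(ℝ, E) 𝓘(ℝ, E) F u) := by
  have h1 : ContMDiffAt 𝓘(ℝ, E) 𝓘(ℝ, E) ∞ (P.par j ∘ h) u :=
    (P.par_contMDiffAt hu).comp u hh.contMDiffAt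
  have h2 : F =ᶠ[𝓝 u] P.par j ∘ h := hF
  refine ⟨h1.congr_of_eventuallyEq h2, ?_⟩
  rw [h2.mfderiv_eq]
  have h3 : DifferentiableAt ℝ h u := hh.differentiableAt (by simp)
  have h4 : mfderiv 𝓘(ℝ, E) 𝓘(ℝ, E) (P.par j ∘ h) u =
      (mfderiv 𝓘(ℝ, E) 𝓘(ℝ, E) (P.par j) (h u)).comp (mfderiv 𝓘(ℝ, E) 𝓘(ℝ, E) h u) :=
    mfderiv_comp u ((P.par_contMDiffAt hu).mdifferentiableAt (by simp))
      h3.mdifferentiableAt
  rw [h4, mfderiv_eq_fderiv]
  have h5 : Function.Injective (fderiv ℝ h u) := by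
    have h6 : fderiv ℝ (h' ∘ h) u = (fderiv ℝ h' (h u)).comp (fderiv ℝ h u) :=
      fderiv_comp u hh' h3
    have h7 : (h' ∘ h) =ᶠ[𝓝 u] id := hinv
    rw [h7.fderiv_eq, fderiv_id] at h6
    intro a b hab
    have h8 := congrArg (fun L : E →L[ℝ] E => L a) h6
    have h9 := congrArg (fun L : E →L[ℝ] E => L b) h6
    simp only [ContinuousLinearMap.coe_id', id_eq, ContinuousLinearMap.coe_comp,
      Function.comp_apply] at h8 h9
    rw [h8, h9, hab]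
  have h6 : Function.Bijective (fderiv ℝ h u) :=
    ⟨h5, (LinearMap.injective_iff_surjective (f := (fderiv ℝ h u).toLinearMap)).1 h5⟩
  exact (P.mfderiv_par_bijective hu).comp h6

end PS

end Pool.Agent.Work.MP_11690a_gt
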