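import Pool.Agent.Work.MP_11690a_gt.Pos

/-!
The blow-up of the torus as a smooth manifold with a symplectic form.
-/

namespace Pool.Agent.Work.MP_11690a_gt

open scoped Manifold ContDiff Topology
open Set Filter

/-- domains of the charts -/
def DD : C3 ⊕ Fin 3 → Set C3 := Sum.elim DT DB

/-- parametrisations -/
noncomputable def cc : C3 ⊕ Fin 3 → C3 → XX := Sum.elim (fun _ => tM) cB

/-- local forms -/
noncomputable def om : C3 ⊕ Fin 3 → C3 → C3 [⋀^Fin 2]→L[ℝ] ℝ :=
  Sum.elim (fun _ => extDeriv gT) (fun i => extDeriv (gB i))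

/-- no point of `DT p` is near the lattice -/
theorem far_of_DT {p v x : C3} (hv : v ∈ DT p) (h : v - x ∈ Lat) : 1 / 8 < nsq x := by
  by_contra h1
  refine hv.2 ⟨x, not_lt.1 h1, ?_⟩
  rw [eq_comm, tor_eq]
  exact h

/-- compatibility of two charts -/
def Cp (i j : C3 ⊕ Fin 3) (u v : C3) : Prop :=
  ∃ h : C3 → C3, ContDiffAt ℝ ∞ h u ∧ h u = v ∧ (∀ᶠ w in 𝓝 u, cc j (h w) = cc i w) ∧
    om i u = (om j v).compContinuousLinearMap (fderiv ℝ h u)

theorem cp_TT {p q u v : C3} (hu : u ∈ DT p) (hv : v ∈ DT q) (h : tM u = tM v) :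
    Cp (Sum.inl p) (Sum.inl q) u v := by
  have h1 := tor_eq.1 (tor_of_tM (tor_DT_ne hu) (tor_DT_ne hv) h).symm
  refine ⟨fun w => w + (v - u), (contDiff_id.add contDiff_const).contDiffAt, by simp,
    Eventually.of_forall fun w => tM_congr (tor_add h1), ?_⟩
  have h2 : fderiv ℝ (fun w : C3 => w + (v - u)) u = ContinuousLinearMap.id ℝ C3 := by
    rw [fderiv_add_const, fderiv_fun_id]
  refine form2_ext fun a b => ?_
  rw [comp2, h2]
  change extDeriv gT u ![a, b] = extDeriv gT v ![a, b]
  rw [extDeriv_gT, extDeriv_gT]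

theorem cp_BT {i : Fin 3} {p u v : C3} (hu : u ∈ DB i) (hv : v ∈ DT p) (h : cB i u = tM v) :
    Cp (Sum.inr i) (Sum.inl p) u v := by
  obtain ⟨hi, hl⟩ := compat_BT hu hv h
  have hfar := far_of_DT hv hl
  refine ⟨fun w => bl i w + (v - bl i u), ((contDiff_bl i).add contDiff_const).contDiffAt, by
    simp, (cB_eventually hi hl).mono fun w hw => hw.2, ?_⟩
  refine form2_ext fun a b => ?_
  rw [comp2, fderiv_add_const]
  change extDeriv (gB i) u ![a, b] = extDeriv gT v _
  rw [extDeriv_gB_far hfar, extDeriv_gT]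

theorem cp_TB {i : Fin 3} {p u v : C3} (hu : u ∈ DT p) (hv : v ∈ DB i) (h : tM u = cB i v) :
    Cp (Sum.inl p) (Sum.inr i) u v := by
  obtain ⟨hi, hl⟩ := compat_BT hv hu h.symm
  have hfar := far_of_DT hu hl
  have h0 : (u - (u - bl i v)) = bl i v := by abel
  have hi' : (u - (u - bl i v)) i ≠ 0 := by rw [h0, bl_same]; exact hi
  have hsm : ContDiffAt ℝ ∞ (fun w => blInv i (w - (u - bl i v))) u :=
    (contDiffAt_blInv hi').comp u (contDiff_id.sub contDiff_const).contDiffAt
  have hev : ∀ᶠ w : C3 in 𝓝 u, (w - (u - bl i v)) i ≠ 0 :=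
    ((continuous_apply i).comp (continuous_id.sub continuous_const)).continuousAt.eventually_ne hi'
  have hval : blInv i (u - (u - bl i v)) = v := by rw [h0, blInv_bl hi]
  refine ⟨fun w => blInv i (w - (u - bl i v)), hsm, hval, ?_, ?_⟩
  · filter_upwards [hev] with w hw
    change cB i (blInv i (w - (u - bl i v))) = tM w
    have h1 : blInv i (w - (u - bl i v)) i ≠ 0 := by
      simpa [blInv] using hw
    rw [cB_ne h1, bl_blInv hw]
    refine tM_congr ?_
    rw [tor_eq]
    have : w - (u - bl i v) - w = -(u - bl i v) := by abel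
    rw [this]
    exact neg_mem hl
  · have h2 : (fun w => bl i (blInv i (w - (u - bl i v)))) =ᶠ[𝓝 u] fun w => w - (u - bl i v) := by
      filter_upwards [hev] with w hw
      exact bl_blInv hw
    have h3 : (fderiv ℝ (bl i) v).comp (fderiv ℝ (fun w => blInv i (w - (u - bl i v))) u) =
        ContinuousLinearMap.id ℝ C3 := by
      have h4 := fderiv_comp (f := fun w => blInv i (w - (u - bl i v))) (g := bl i) u
        ((contDiff_bl i).differentiable (by simp) _) (hsm.differentiableAt (by simp))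
      have h5 : (bl i ∘ fun w => blInv i (w - (u - bl i v))) =ᶠ[𝓝 u]
        fun w => w - (u - bl i v) := h2
      rw [h5.fderiv_eq, fderiv_sub_const, fderiv_fun_id] at h4
      simp only [hval] at h4
      exact h4.symm
    refine form2_ext fun a b => ?_
    rw [comp2]
    change extDeriv gT u ![a, b] = extDeriv (gB i) v _
    rw [extDeriv_gB_far hfar, extDeriv_gT]
    have h6 : ∀ a : C3, fderiv ℝ (bl i) v (fderiv ℝ (fun w => blInv i (w - (u - bl i v))) u a) = a :=
      fun a => congrArg (fun L : C3 →L[ℝ] C3 => L a) h3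
    rw [h6, h6]

theorem cp_BB {i j : Fin 3} {u v : C3} (hu : u ∈ DB i) (hv : v ∈ DB j) (h : cB i u = cB j v) :
    Cp (Sum.inr i) (Sum.inr j) u v := by
  obtain ⟨h0, hval⟩ := compat_BB hu hv h
  have hsm := contDiffAt_blT h0
  have hev : ∀ᶠ w : C3 in 𝓝 u, vec i w j ≠ 0 :=
    ((continuous_apply j).comp (contDiff_vec i).continuous).continuousAt.eventually_ne h0
  refine ⟨blT i j, hsm, hval, hev.mono fun w hw => cB_blT hw, ?_⟩
  have hd : DifferentiableAt ℝ (blT i j) u := hsm.differentiableAt (by simp)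
  have e1 : ∀ a, fderiv ℝ (bl j) v (fderiv ℝ (blT i j) u a) = fderiv ℝ (bl i) u a := by
    intro a
    have h4 := fderiv_comp (f := blT i j) (g := bl j) u
      ((contDiff_bl j).differentiable (by simp) _) hd
    have h5 : (bl j ∘ blT i j) =ᶠ[𝓝 u] bl i := hev.mono fun w hw => bl_blT hw
    rw [h5.fderiv_eq, hval] at h4
    exact (congrArg (fun L : C3 →L[ℝ] C3 => L a) h4).symm
  have hg : DifferentiableAt ℝ (fun w : C3 => (vec i w j)⁻¹) u := by
    have : DifferentiableAt ℝ (fun w : C3 => vec i w j) u :=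
      ((contDiff_pi.1 (contDiff_vec i)) j).differentiable (by simp) u
    exact this.inv h0
  have e2 : ∀ a, fderiv ℝ (vec j) v (fderiv ℝ (blT i j) u a) =
      (fderiv ℝ (fun w : C3 => (vec i w j)⁻¹) u a) • vec i u +
        (vec i u j)⁻¹ • fderiv ℝ (vec i) u a := by
    intro a
    have h4 := fderiv_comp (f := blT i j) (g := vec j) u
      ((contDiff_vec j).differentiable (by simp) _) hd
    have h5 : (vec j ∘ blT i j) =ᶠ[𝓝 u] fun w => (vec i w j)⁻¹ • vec i w :=
      hev.mono fun w hw => vec_blT hw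
    rw [h5.fderiv_eq, hval] at h4
    have h6 := (hg.hasFDerivAt.smul ((contDiff_vec i).differentiable (by simp) u).hasFDerivAt).fderiv
    have h7 : fderiv ℝ (fun w => (vec i w j)⁻¹ • vec i w) u a =
        (vec i u j)⁻¹ • fderiv ℝ (vec i) u a +
        (fderiv ℝ (fun w : C3 => (vec i w j)⁻¹) u a) • vec i u :=
      congrArg (fun L : C3 →L[ℝ] C3 => L a) h6
    rw [add_comm, ← h7, h4]
    rfl
  have e3 : bl j v = bl i u := by rw [← hval, bl_blT h0]
  have e4 : vec j v = (vec i u j)⁻¹ • vec i u := by rw [← hval, vec_blT h0]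
  refine form2_ext fun a b => ?_
  rw [comp2]
  change extDeriv (gB i) u ![a, b] = extDeriv (gB j) v _
  rw [extDeriv_gB, extDeriv_gB, e1, e1, e2, e2, e3, e4, fs_smul (vec_ne i u) (inv_ne_zero h0)]

theorem cp_all : ∀ i j u v, u ∈ DD i → v ∈ DD j → cc i u = cc j v → Cp i j u v := by
  rintro (p | i) (q | j) u v hu hv h
  · exact cp_TT hu hv h
  · exact cp_TB hu hv h
  · exact cp_BT hu hv h
  · exact cp_BB hu hv h

theorem cov_all (x : XX) : ∃ i, ∃ u ∈ DD i, cc i u = x := by
  rcases x with ⟨x, hx⟩ | l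
  · by_cases hK : x ∈ KK
    · obtain ⟨a, ha, rfl⟩ := hK
      have ha' : nsq a ≤ 1 / 8 := ha
      have ha0 : a ≠ 0 := by
        rintro rfl
        exact hx tor_zero
      obtain ⟨i, hi⟩ : ∃ i, a i ≠ 0 := by
        by_contra hcon
        push Not at hcon
        exact ha0 (funext hcon)
      have h1 : blInv i a i ≠ 0 := by simpa [blInv] using hi
      refine ⟨Sum.inr i, blInv i a, ?_, ?_⟩
      · change nsq (bl i (blInv i a)) < 1 / 4
        rw [bl_blInv hi]
        linarith
      · change cB i (blInv i a) = _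
        rw [cB_ne h1, bl_blInv hi, tM_of hx]
    · obtain ⟨u, rfl⟩ := tor_surj x
      refine ⟨Sum.inl u, u, ⟨?_, hK⟩, tM_of hx⟩
      simp [nsq]
  · induction l using Projectivization.ind with
    | h v hv =>
      obtain ⟨i, hi⟩ : ∃ i, v i ≠ 0 := by
        by_contra hcon
        push Not at hcon
        exact hv (funext hcon)
      let u : C3 := Function.update ((v i)⁻¹ • v) i 0
      have hu : u i = 0 := by simp [u]
      have h1 : vec i u = (v i)⁻¹ • v := by
        funext k
        by_cases hk : k = i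
        · subst hk
          rw [vec_same, Pi.smul_apply, smul_eq_mul, inv_mul_cancel₀ hi]
        · simp [vec, u, Function.update_of_ne hk]
      refine ⟨Sum.inr i, u, ?_, ?_⟩
      · change nsq (bl i u) < 1 / 4
        rw [nsq_bl, hu, map_zero, zero_mul]
        norm_num
      · change cB i u = _
        rw [cB_zero hu]
        congr 1
        exact lin_eq.2 ⟨(v i)⁻¹, h1.symm⟩

/-- the blow-up as a glued space -/
noncomputable def PM : PS C3 XX (C3 ⊕ Fin 3) where
  D := DD
  hD := by
    rintro (p | i)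
    · exact isOpen_DT p
    · exact isOpen_DB i
  c := cc
  inj := by
    rintro (p | i)
    · exact injOn_tM p
    · exact injOn_cB i
  cov := cov_all
  compat := by
    intro i j u v hu hv h
    obtain ⟨h, h1, h2, h3, -⟩ := cp_all i j u v hu hv h
    exact ⟨h, h1, h2, h3⟩

theorem compatF_om : PM.CompatF om := cp_all

theorem symplectic_PM : IsSymplectic (PM.form om) := by
  refine PM.isSymplectic_form compatF_om ?_ ?_ ?_
  · rintro (p | i)
    · exact (contDiff_extDeriv contDiff_gT).contDiffOn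
    · exact (contDiff_extDeriv (contDiff_gB i)).contDiffOn
  · rintro (p | i) y -
    · exact congrFun (extDeriv_extDeriv (contDiff_infty.1 contDiff_gT 2) (by simp)) y
    · exact congrFun (extDeriv_extDeriv (contDiff_infty.1 (contDiff_gB i) 2) (by simp)) y
  · rintro (p | i) y - v hv
    · by_contra h0
      have h1 := hv (Complex.I • v)
      change extDeriv gT y ![v, Complex.I • v] = 0 at h1
      rw [extDeriv_gT, hh_I, hh_self] at h1
      simp only [Complex.mul_im, Complex.I_re, Complex.I_im, Complex.ofReal_re, Complex.ofReal_im,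
        zero_mul, one_mul, zero_add] at h1
      exact h0 (nsq_eq_zero.1 h1)
    · by_contra h0
      exact (gB_pos i y v h0).ne' (hv (Complex.I • v))

end Pool.Agent.Work.MP_11690a_gt
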