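import Pool.Agent.Work.MP_11690a_gt.Forms

/-!
Positivity.
-/

namespace Pool.Agent.Work.MP_11690a_gt

open scoped Manifold ContDiff Topology
open Set Filter

theorem nsq_comb (c d : ℂ) (x b : C3) : nsq (c • x + d • b) =
    Complex.normSq c * nsq x + 2 * ((starRingEnd ℂ) c * d * hh x b).re + Complex.normSq d * nsq b := by
  rw [← hh_self_re]
  have h : hh (c • x + d • b) (c • x + d • b) = (starRingEnd ℂ) c * (c * hh x x) +
      (starRingEnd ℂ) c * (d * hh x b) + ((starRingEnd ℂ) d * (c * hh b x) +
      (starRingEnd ℂ) d * (d * hh b b)) := by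
    rw [hh_add_left, hh_smul_left, hh_smul_left, hh_add_right, hh_add_right]
    simp only [hh_smul_right]
    ring
  rw [h, hh_self, hh_self, ← hh_conj x b]
  simp only [Complex.add_re, Complex.mul_re, Complex.mul_im, Complex.conj_re, Complex.conj_im,
    Complex.ofReal_re, Complex.ofReal_im, Complex.normSq_apply]
  ring

theorem cauchy (x b : C3) : Complex.normSq (hh x b) ≤ nsq x * nsq b := by
  by_cases hb : b = 0
  · subst hb
    have : hh x 0 = 0 := by simp [hh]
    rw [this]
    simp [nsq]
  · have hq := nsq_pos hb
    have h1 := nsq_nonneg ((nsq b : ℂ) • x + (-(starRingEnd ℂ) (hh x b)) • b)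
    rw [nsq_comb] at h1
    have h2 : Complex.normSq (nsq b : ℂ) * nsq x + 2 * ((starRingEnd ℂ) (nsq b : ℂ) *
        (-(starRingEnd ℂ) (hh x b)) * hh x b).re +
        Complex.normSq (-(starRingEnd ℂ) (hh x b)) * nsq b =
        nsq b * (nsq x * nsq b - Complex.normSq (hh x b)) := by
      rw [Complex.normSq_neg, Complex.normSq_conj, Complex.conj_ofReal]
      simp only [Complex.mul_re, Complex.mul_im, Complex.conj_re, Complex.conj_im, Complex.neg_re,
        Complex.neg_im, Complex.ofReal_re, Complex.ofReal_im, Complex.normSq_apply]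
      ring
    rw [h2] at h1
    have h3 := nonneg_of_mul_nonneg_right h1 hq
    linarith

theorem nsq_update (i : Fin 3) (x : C3) : nsq x = Complex.normSq (x i) + nsq (Function.update x i 0) := by
  unfold nsq
  rw [← Finset.add_sum_erase _ _ (Finset.mem_univ i),
    ← Finset.add_sum_erase _ (fun j => Complex.normSq (Function.update x i 0 j))
      (Finset.mem_univ i)]
  simp only [Function.update_self, map_zero, zero_add]
  congr 1
  refine Finset.sum_congr rfl fun j hj => ?_
  rw [Function.update_of_ne (Finset.ne_of_mem_erase hj)]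

theorem hh_update (i : Fin 3) (x a : C3) :
    hh x (Function.update a i 0) = hh (Function.update x i 0) (Function.update a i 0) := by
  unfold hh
  refine Finset.sum_congr rfl fun j _ => ?_
  by_cases hj : j = i
  · subst hj; simp
  · simp [Function.update_of_ne hj]

theorem gap (i : Fin 3) (u a : C3) :
    nsq (Function.update a i 0) ≤ nsq (vec i u) * nsq (Function.update a i 0) -
      Complex.normSq (hh (vec i u) (Function.update a i 0)) := by
  have h1 := nsq_update i (vec i u)
  rw [vec_same, map_one] at h1
  have h2 := cauchy (Function.update (vec i u) i 0) (Function.update a i 0)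
  rw [← hh_update] at h2
  rw [h1]
  linarith

/-- positivity near the exceptional divisor -/
theorem gB_pos (i : Fin 3) (u a : C3) (ha : a ≠ 0) :
    0 < extDeriv (gB i) u ![a, Complex.I • a] := by
  rw [extDeriv_gB]
  have hI0 : Function.update (Complex.I • a) i 0 = Complex.I • Function.update a i 0 := by
    funext k
    by_cases hk : k = i
    · subst hk; simp
    · simp [hk]
  have hI : fderiv ℝ (bl i) u (Complex.I • a) = Complex.I • fderiv ℝ (bl i) u a := by
    rw [fderiv_bl, fderiv_bl, hI0, smul_add, Pi.smul_apply, smul_eq_mul, mul_smul,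
      smul_comm (u i) Complex.I]
  rw [hI, fderiv_bl, fderiv_vec, fderiv_vec, hI0]
  have hgap := gap i u a
  have hk1 := kf_add_pos (nsq (bl i u))
  have hk2 := mul_kf_add_pos (nsq_nonneg (bl i u))
  have hρ : nsq (bl i u) = Complex.normSq (u i) * nsq (vec i u) := nsq_bl i u
  rw [show bl i u = u i • vec i u from rfl] at hk1 hk2 hρ ⊢
  have hbz : nsq (Function.update a i 0) = 0 → a i ≠ 0 := by
    intro h h1
    apply ha
    rw [nsq_eq_zero] at h
    rw [← h]
    funext k
    by_cases hk : k = i
    · subst hk; simp [h1]
    · simp [hk]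
  have ht : 0 < nsq (vec i u) := nsq_pos (vec_ne i u)
  generalize Function.update a i 0 = b at *
  generalize hV : vec i u = V at *
  generalize a i = α at *
  generalize u i = g at *
  generalize hr : nsq (g • V) = r at *
  generalize kf r = k at *
  generalize deriv kf r = k' at *
  have hr0 : 0 ≤ r := hr ▸ nsq_nonneg _
  -- values
  have e1 : wf k k' (g • V) (α • V + g • b) (Complex.I • (α • V + g • b)) =
      k * nsq (α • V + g • b) + k' * (Complex.normSq g * Complex.normSq (hh V (α • V + g • b))) := by
    unfold wf
    rw [hh_I, hh_I, hh_self, hh_smul_left, ← hh_conj (g • V) (α • V + g • b), hh_smul_left]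
    simp only [Complex.add_im, Complex.mul_re, Complex.mul_im, Complex.conj_re, Complex.conj_im,
      Complex.ofReal_re, Complex.ofReal_im, Complex.normSq_apply, Complex.I_re, Complex.I_im]
    ring
  have e2 : (fs V b (Complex.I • b)).im = nsq b / nsq V - Complex.normSq (hh V b) / nsq V ^ 2 := by
    unfold fs
    rw [hh_I, hh_I, hh_self, ← hh_conj V b]
    have : Complex.I * (nsq b : ℂ) / (nsq V : ℂ) - (starRingEnd ℂ) (hh V b) *
        (Complex.I * hh V b) / (nsq V : ℂ) ^ 2 =
        ((nsq b / nsq V - Complex.normSq (hh V b) / nsq V ^ 2 : ℝ) : ℂ) * Complex.I := by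
      push_cast
      rw [Complex.normSq_eq_conj_mul_self]
      ring
    rw [this]
    simp only [Complex.mul_im, Complex.I_re, Complex.I_im, Complex.ofReal_re, Complex.ofReal_im]
    ring
  have e3 : nsq (α • V + g • b) = Complex.normSq α * nsq V +
      2 * ((starRingEnd ℂ) α * g * hh V b).re + Complex.normSq g * nsq b := nsq_comb _ _ _ _
  have e4 : Complex.normSq (hh V (α • V + g • b)) = Complex.normSq α * nsq V ^ 2 +
      2 * nsq V * ((starRingEnd ℂ) α * g * hh V b).re +
      Complex.normSq g * Complex.normSq (hh V b) := by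
    rw [hh_add_right, hh_smul_right, hh_smul_right, hh_self]
    simp only [Complex.add_re, Complex.add_im, Complex.mul_re, Complex.mul_im, Complex.conj_re,
      Complex.conj_im, Complex.ofReal_re, Complex.ofReal_im, Complex.normSq_apply]
    ring
  have hN : 0 ≤ Complex.normSq (hh V (α • V + g • b)) := Complex.normSq_nonneg _
  have hq := nsq_nonneg b
  rw [e1, e2]
  have e5 : nsq V ^ 2 * (k * nsq (α • V + g • b) +
      k' * (Complex.normSq g * Complex.normSq (hh V (α • V + g • b))) +
      ep * (nsq b / nsq V - Complex.normSq (hh V b) / nsq V ^ 2)) =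
      nsq V * Complex.normSq (hh V (α • V + g • b)) * (k + r * k') +
      (nsq V * nsq b - Complex.normSq (hh V b)) * (r * k + ep) := by
    rw [hρ, e4, e3]
    field_simp
    ring
  have h6 : 0 < nsq V * Complex.normSq (hh V (α • V + g • b)) * (k + r * k') +
      (nsq V * nsq b - Complex.normSq (hh V b)) * (r * k + ep) := by
    rcases hq.eq_or_lt with h | h
    · have hb : b = 0 := nsq_eq_zero.1 h.symm
      have hα := hbz h.symm
      have h7 : 0 < Complex.normSq (hh V (α • V + g • b)) := by
        rw [hb, smul_zero, add_zero, hh_smul_right, hh_self]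
        refine Complex.normSq_pos.2 (mul_ne_zero hα ?_)
        exact_mod_cast ht.ne'
      have h8 : 0 ≤ nsq V * nsq b - Complex.normSq (hh V b) := by linarith
      positivity
    · have h8 : 0 < nsq V * nsq b - Complex.normSq (hh V b) := by linarith
      positivity
  rw [← e5] at h6
  exact (mul_pos_iff_of_pos_left (by positivity)).1 h6

end Pool.Agent.Work.MP_11690a_gt
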